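import Mathlib

set_option autoImplicit false

open Finset

namespace Pool.Agent.H.MP_b23ae3_co

variable {m : ℕ}

/-! ### Flipping one coordinate -/

theorem card_symmDiff_singleton_of_mem {D : Finset (Fin m)} {a : Fin m} (h : a ∈ D) :
    (symmDiff D {a}).card = D.card - 1 := by
  have : symmDiff D {a} = D.erase a := by
    ext x
    simp only [Finset.mem_symmDiff, Finset.mem_singleton, Finset.mem_erase]
    constructor
    · rintro (⟨h1, h2⟩ | ⟨h1, h2⟩)
      · exact ⟨h2, h1⟩
      · exact absurd (h1 ▸ h) h2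
    · rintro ⟨h1, h2⟩
      exact Or.inl ⟨h2, h1⟩
  rw [this, Finset.card_erase_of_mem h]

theorem card_symmDiff_singleton_of_not_mem {D : Finset (Fin m)} {a : Fin m} (h : a ∉ D) :
    (symmDiff D {a}).card = D.card + 1 := by
  have : symmDiff D {a} = insert a D := by
    ext x
    simp only [Finset.mem_symmDiff, Finset.mem_singleton, Finset.mem_insert]
    constructor
    · rintro (⟨h1, h2⟩ | ⟨h1, h2⟩)
      · exact Or.inr h1
      · exact Or.inl h1
    · rintro (h1 | h1)
      · subst h1; exact Or.inr ⟨rfl, h⟩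
      · exact Or.inl ⟨h1, fun e => h (e ▸ h1)⟩
  rw [this, Finset.card_insert_of_notMem h]

theorem sum_flip (D : Finset (Fin m)) (ψ : ℕ → ℝ) :
    ∑ a, ψ (symmDiff D {a}).card
      = (D.card : ℝ) * ψ (D.card - 1) + ((m : ℝ) - D.card) * ψ (D.card + 1) := by
  classical
  rw [← Finset.sum_filter_add_sum_filter_not univ (fun a => a ∈ D)]
  congr 1
  · rw [Finset.sum_congr rfl (g := fun _ => ψ (D.card - 1))]
    · rw [Finset.sum_const, nsmul_eq_mul, Finset.filter_mem_eq_inter, Finset.univ_inter]
    · intro a ha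
      rw [card_symmDiff_singleton_of_mem (Finset.mem_filter.1 ha).2]
  · rw [Finset.sum_congr rfl (g := fun _ => ψ (D.card + 1))]
    · rw [Finset.sum_const, nsmul_eq_mul]
      congr 1
      have h1 : (univ.filter (fun a => a ∉ D)) = Dᶜ := by
        ext a; simp
      rw [h1, Finset.card_compl, Fintype.card_fin, Nat.cast_sub]
      have := Finset.card_le_univ D
      rwa [Fintype.card_fin] at this
    · intro a ha
      rw [card_symmDiff_singleton_of_not_mem (Finset.mem_filter.1 ha).2]

/-- the involution flipping the coordinate `a` -/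
def flipPerm (a : Fin m) : Equiv.Perm (Finset (Fin m)) :=
  Function.Involutive.toPerm (fun u => symmDiff u {a}) (fun u => by
    show symmDiff (symmDiff u {a}) {a} = u
    rw [symmDiff_assoc, symmDiff_self, symmDiff_bot])

theorem sum_flipPerm (a : Fin m) (f : Finset (Fin m) → ℝ) :
    ∑ u, f (symmDiff u {a}) = ∑ u, f u :=
  Fintype.sum_equiv (flipPerm a) _ _ (fun _ => rfl)

/-! ### Transition probabilities of the random walk on the cube -/

/-- the probability that the simple random walk is at a given vertex at distance `d` after `j`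
steps -/
noncomputable def q (m : ℕ) : ℕ → ℕ → ℝ
  | 0, d => if d = 0 then 1 else 0
  | j + 1, d => ((d : ℝ) * q m j (d - 1) + ((m : ℝ) - d) * q m j (d + 1)) / m

theorem q_nonneg (j : ℕ) : ∀ d, d ≤ m → 0 ≤ q m j d := by
  induction j with
  | zero =>
    intro d _
    unfold q
    split_ifs <;> norm_num
  | succ j ih =>
    intro d hd
    unfold q
    apply div_nonneg _ (Nat.cast_nonneg m)
    apply add_nonneg
    · exact mul_nonneg (Nat.cast_nonneg d) (ih (d - 1) (by omega))
    · rcases hd.eq_or_lt with h | h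
      · rw [h, sub_self, zero_mul]
      · apply mul_nonneg _ (ih (d + 1) h)
        have : (d : ℝ) ≤ m := by exact_mod_cast hd
        linarith

theorem q_support (j : ℕ) : ∀ d, j < d → q m j d = 0 := by
  induction j with
  | zero =>
    intro d hd
    unfold q
    rw [if_neg (by omega)]
  | succ j ih =>
    intro d hd
    unfold q
    rw [ih (d - 1) (by omega), ih (d + 1) (by omega)]
    simp

/-- expectation of `φ` of the distance to the start after `j` steps -/
noncomputable def ex (m : ℕ) (j : ℕ) (φ : ℕ → ℝ) : ℝ :=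
  ∑ u : Finset (Fin m), q m j u.card * φ u.card

/-- one step of the walk applied to radial functions -/
noncomputable def lop (m : ℕ) (φ : ℕ → ℝ) (d : ℕ) : ℝ :=
  (((m : ℝ) - d) * φ (d + 1) + d * φ (d - 1)) / m

theorem ex_zero (φ : ℕ → ℝ) : ex m 0 φ = φ 0 := by
  classical
  unfold ex
  rw [Finset.sum_eq_single ∅]
  · simp [q]
  · intro u _ hu
    have : u.card ≠ 0 := fun h => hu (Finset.card_eq_zero.1 h)
    simp [q, this]
  · simp

theorem ex_succ (j : ℕ) (φ : ℕ → ℝ) : ex m (j + 1) φ = ex m j (lop m φ) := by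
  unfold ex
  have h1 : ∀ u : Finset (Fin m), q m (j + 1) u.card * φ u.card
      = (∑ a : Fin m, q m j (symmDiff u {a}).card * φ u.card) / m := by
    intro u
    rw [← Finset.sum_mul, sum_flip u (q m j)]
    show (((u.card : ℝ) * q m j (u.card - 1) + ((m : ℝ) - u.card) * q m j (u.card + 1)) / m) *
      φ u.card = _
    ring
  have h2 : ∀ u : Finset (Fin m), q m j u.card * lop m φ u.card
      = (∑ a : Fin m, q m j u.card * φ (symmDiff u {a}).card) / m := by
    intro u
    rw [← Finset.mul_sum, sum_flip u φ]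
    unfold lop
    ring
  rw [Finset.sum_congr rfl (fun u _ => h1 u), Finset.sum_congr rfl (fun u _ => h2 u),
    ← Finset.sum_div, ← Finset.sum_div]
  congr 1
  rw [Finset.sum_comm]
  conv_rhs => rw [Finset.sum_comm]
  apply Finset.sum_congr rfl
  intro a _
  rw [← sum_flipPerm a (fun u => q m j u.card * φ (symmDiff u {a}).card)]
  apply Finset.sum_congr rfl
  intro u _
  rw [symmDiff_assoc, symmDiff_self, symmDiff_bot]

theorem card_le (u : Finset (Fin m)) : u.card ≤ m := by
  have := Finset.card_le_univ u
  rwa [Fintype.card_fin] at this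

theorem ex_mono (j : ℕ) {φ ψ : ℕ → ℝ} (h : ∀ d, d ≤ m → φ d ≤ ψ d) : ex m j φ ≤ ex m j ψ := by
  unfold ex
  apply Finset.sum_le_sum
  intro u _
  exact mul_le_mul_of_nonneg_left (h _ (card_le u)) (q_nonneg j _ (card_le u))

theorem ex_mono_supp (j : ℕ) {φ ψ : ℕ → ℝ} (h : ∀ d, d ≤ m → d ≤ j → φ d ≤ ψ d) :
    ex m j φ ≤ ex m j ψ := by
  unfold ex
  apply Finset.sum_le_sum
  intro u _
  by_cases hu : u.card ≤ j
  · exact mul_le_mul_of_nonneg_left (h _ (card_le u) hu) (q_nonneg j _ (card_le u))
  · rw [q_support j _ (by omega)]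
    simp

theorem ex_add (j : ℕ) (φ ψ : ℕ → ℝ) : ex m j (fun d => φ d + ψ d) = ex m j φ + ex m j ψ := by
  unfold ex
  rw [← Finset.sum_add_distrib]
  apply Finset.sum_congr rfl
  intro u _
  ring

theorem ex_smul (j : ℕ) (c : ℝ) (φ : ℕ → ℝ) : ex m j (fun d => c * φ d) = c * ex m j φ := by
  unfold ex
  rw [Finset.mul_sum]
  apply Finset.sum_congr rfl
  intro u _
  ring

theorem ex_one (hm : 0 < m) (j : ℕ) : ex m j (fun _ => 1) = 1 := by
  have hm' : (m : ℝ) ≠ 0 := by exact_mod_cast hm.ne'
  induction j with
  | zero => rw [ex_zero]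
  | succ j ih =>
    rw [ex_succ]
    have : lop m (fun _ => (1 : ℝ)) = fun _ => 1 := by
      funext d
      unfold lop
      field_simp
      ring
    rw [this, ih]

theorem ex_id_succ (hm : 0 < m) (j : ℕ) :
    ex m (j + 1) (fun d => (d : ℝ)) = (1 - 2 / m) * ex m j (fun d => (d : ℝ)) + 1 := by
  have hm' : (m : ℝ) ≠ 0 := by exact_mod_cast hm.ne'
  rw [ex_succ]
  have : lop m (fun d => (d : ℝ)) = fun d : ℕ => (1 - 2 / (m : ℝ)) * (d : ℝ) + 1 := by
    funext d
    unfold lop
    rcases Nat.eq_zero_or_pos d with h | h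
    · subst h; field_simp; push_cast; ring
    · have : ((d - 1 : ℕ) : ℝ) = (d : ℝ) - 1 := by
        rw [Nat.cast_sub h]; simp
      simp only [this]
      push_cast
      field_simp
      ring
  rw [this, ex_add, ex_smul, ex_one hm]

theorem ex_id_le (hm : 0 < m) (j : ℕ) :
    0 ≤ ex m j (fun d => (d : ℝ)) ∧ ex m j (fun d => (d : ℝ)) ≤ j := by
  have hm' : (0 : ℝ) < (m : ℝ) := by exact_mod_cast hm
  constructor
  · unfold ex
    apply Finset.sum_nonneg
    intro u _
    exact mul_nonneg (q_nonneg j _ (card_le u)) (Nat.cast_nonneg _)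
  · have h0 : ex m j (fun d => (d : ℝ)) ≤ ex m j (fun _ => (j : ℝ) * 1) := by
      apply ex_mono_supp
      intro d _ hd
      rw [mul_one]
      exact_mod_cast hd
    rw [ex_smul, ex_one hm, mul_one] at h0
    exact h0

theorem ex_id_ge (hm : 0 < m) (j : ℕ) :
    (j : ℝ) - j * j / m ≤ ex m j (fun d => (d : ℝ)) := by
  have hm' : (0 : ℝ) < (m : ℝ) := by exact_mod_cast hm
  induction j with
  | zero =>
    have := (ex_id_le hm 0).1
    simpa using this
  | succ j ih =>
    rw [ex_id_succ hm]
    have h1 := (ex_id_le hm j).2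
    have h2 : (1 - 2 / (m : ℝ)) * ex m j (fun d => (d : ℝ)) + 1
        ≥ ((j : ℝ) - j * j / m) - 2 / m * j + 1 := by
      have h3 : 2 / (m : ℝ) * ex m j (fun d => (d : ℝ)) ≤ 2 / m * j :=
        mul_le_mul_of_nonneg_left h1 (by positivity)
      nlinarith
    refine le_trans ?_ h2
    push_cast
    have h4 : ((j : ℝ) + 1) * (j + 1) / m = j * j / m + 2 / m * j + 1 / m := by
      field_simp
      ring
    rw [h4]
    have h5 : 0 < 1 / (m : ℝ) := by positivity
    linarith

/-- lower bound for the expected number of visits to a sphere -/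
theorem visits (hm : 0 < m) (s : ℕ) (hs : 8 * (s + 1) ≤ m) (t : ℕ) (ht : t ≤ s) :
    1 / 4 ≤ ∑ j ∈ range (4 * (s + 1)), (m.choose t : ℝ) * q m j t := by
  classical
  have hm' : (0 : ℝ) < (m : ℝ) := by exact_mod_cast hm
  set J := 4 * (s + 1) with hJ
  let φ : ℕ → ℝ := fun d => if t + 1 ≤ d then 1 else 0
  let δ : ℕ → ℝ := fun d => if d = t then 1 else 0
  -- final tail
  have h1 : 1 / 4 ≤ ex m J φ := by
    have hge := ex_id_ge hm J
    have hle : ex m J (fun d => (d : ℝ)) ≤ ex m J (fun d => (s : ℝ) * 1 + (J : ℝ) * φ d) := by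
      apply ex_mono_supp
      intro d _ hd
      show (d : ℝ) ≤ (s : ℝ) * 1 + (J : ℝ) * (if t + 1 ≤ d then 1 else 0)
      by_cases h : t + 1 ≤ d
      · rw [if_pos h]
        have : (d : ℝ) ≤ J := by exact_mod_cast hd
        have : (0 : ℝ) ≤ s := Nat.cast_nonneg s
        linarith
      · rw [if_neg h]
        have : (d : ℝ) ≤ s := by exact_mod_cast (by omega : d ≤ s)
        linarith
    rw [ex_add J (fun _ => (s : ℝ) * 1) (fun d => (J : ℝ) * φ d), ex_smul, ex_smul,
      ex_one hm] at hle
    have hJm : (J : ℝ) * J / m ≤ J / 2 := by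
      have : 2 * (J : ℝ) ≤ m := by exact_mod_cast (by omega : 2 * J ≤ m)
      rw [div_le_iff₀ hm']
      have hJ0 : (0 : ℝ) ≤ J := Nat.cast_nonneg J
      nlinarith
    have hJs : (J : ℝ) = 4 * (s + 1) := by rw [hJ]; push_cast; ring
    have hs0 : (0 : ℝ) ≤ s := Nat.cast_nonneg s
    rw [hJs] at hge hle hJm
    have h3 : 4 * ((s : ℝ) + 1) * ex m J φ ≥ s + 2 := by linarith
    by_contra hcon
    push Not at hcon
    nlinarith
  -- telescoping
  have h2 : ∀ n, ex m n φ ≤ ∑ j ∈ range n, ex m j δ := by
    intro n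
    induction n with
    | zero =>
      rw [ex_zero]
      simp [φ]
    | succ n ih =>
      rw [Finset.sum_range_succ, ex_succ]
      refine le_trans ?_ (add_le_add_left ih _)
      rw [← ex_add]
      apply ex_mono
      intro d hd
      show (((m : ℝ) - d) * (if t + 1 ≤ d + 1 then 1 else 0) + d * (if t + 1 ≤ d - 1 then 1 else 0))
        / m ≤ (if t + 1 ≤ d then 1 else 0) + (if d = t then 1 else 0)
      rw [div_le_iff₀ hm']
      have hdm : (d : ℝ) ≤ m := by exact_mod_cast hd
      have hd0 : (0 : ℝ) ≤ d := Nat.cast_nonneg d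
      rcases lt_trichotomy d t with h | h | h
      · rw [if_neg (by omega), if_neg (by omega), if_neg (by omega), if_neg (by omega)]
        simp
      · rw [if_pos (by omega), if_neg (by omega), if_neg (by omega), if_pos h]
        linarith
      · by_cases h' : t + 1 ≤ d - 1
        · rw [if_pos (by omega), if_pos h', if_pos (by omega), if_neg (by omega)]
          linarith
        · rw [if_pos (by omega), if_neg h', if_pos (by omega), if_neg (by omega)]
          linarith
  have h3 : ∀ j, ex m j δ = (m.choose t : ℝ) * q m j t := by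
    intro j
    unfold ex
    rw [Finset.sum_congr rfl (g := fun u : Finset (Fin m) => if u.card = t then q m j t else 0)]
    · rw [← Finset.sum_filter, Finset.sum_const, nsmul_eq_mul]
      congr 2
      rw [← Finset.powerset_univ, ← Finset.powersetCard_eq_filter, Finset.card_powersetCard,
        Finset.card_univ, Fintype.card_fin]
    · intro u _
      show q m j u.card * (if u.card = t then (1 : ℝ) else 0) = _
      by_cases h : u.card = t
      · rw [if_pos h, if_pos h, h, mul_one]
      · rw [if_neg h, if_neg h, mul_zero]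
  calc (1 : ℝ) / 4 ≤ ex m J φ := h1
    _ ≤ ∑ j ∈ range J, ex m j δ := h2 J
    _ = _ := Finset.sum_congr rfl (fun j _ => h3 j)

/-! ### The maximal inequality -/

/-- averaging over the neighbours -/
noncomputable def top (g : Finset (Fin m) → ℝ) (v : Finset (Fin m)) : ℝ :=
  (∑ a : Fin m, g (symmDiff v {a})) / m

theorem top_mono {g h : Finset (Fin m) → ℝ} (H : ∀ v, g v ≤ h v) (v : Finset (Fin m)) :
    top g v ≤ top h v := by
  unfold top
  apply div_le_div_of_nonneg_right _ (Nat.cast_nonneg m)
  exact Finset.sum_le_sum fun a _ => H _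

theorem sum_top (hm : 0 < m) (g : Finset (Fin m) → ℝ) : ∑ v, top g v = ∑ v, g v := by
  have hm' : (m : ℝ) ≠ 0 := by exact_mod_cast hm.ne'
  unfold top
  rw [← Finset.sum_div, Finset.sum_comm]
  rw [Finset.sum_congr rfl (fun a _ => sum_flipPerm a g), Finset.sum_const, nsmul_eq_mul,
    Finset.card_univ, Fintype.card_fin]
  field_simp

/-- maximal partial sums -/
noncomputable def mx (g : Finset (Fin m) → ℝ) : ℕ → Finset (Fin m) → ℝ
  | 0 => fun _ => 0
  | n + 1 => fun v => max 0 (g v + top (mx g n) v)

theorem mx_nonneg (g : Finset (Fin m) → ℝ) (n : ℕ) (v : Finset (Fin m)) : 0 ≤ mx g n v := by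
  cases n with
  | zero => exact le_refl _
  | succ n => exact le_max_left _ _

theorem mx_mono (g : Finset (Fin m) → ℝ) (n : ℕ) : ∀ v, mx g n v ≤ mx g (n + 1) v := by
  induction n with
  | zero => intro v; exact mx_nonneg g 1 v
  | succ n ih =>
    intro v
    show max 0 (g v + top (mx g n) v) ≤ max 0 (g v + top (mx g (n + 1)) v)
    exact max_le_max (le_refl _) (by linarith [top_mono ih v])

/-- Garsia's form of the maximal ergodic theorem -/
theorem garsia (hm : 0 < m) (g : Finset (Fin m) → ℝ) (n : ℕ) [DecidablePred fun v => 0 < mx g n v] :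
    0 ≤ ∑ v ∈ univ.filter (fun v => 0 < mx g n v), g v := by
  classical
  cases n with
  | zero =>
    apply Finset.sum_nonneg
    intro v hv
    exact absurd (Finset.mem_filter.1 hv).2 (lt_irrefl _)
  | succ n =>
    have h1 : ∀ v ∈ univ.filter (fun v => 0 < mx g (n + 1) v),
        mx g (n + 1) v - top (mx g (n + 1)) v ≤ g v := by
      intro v hv
      have hv' := (Finset.mem_filter.1 hv).2
      have e : mx g (n + 1) v = g v + top (mx g n) v := by
        show max 0 (g v + top (mx g n) v) = _
        apply max_eq_right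
        by_contra hc
        push Not at hc
        have : mx g (n + 1) v = 0 := max_eq_left hc.le
        linarith
      have := top_mono (mx_mono g n) v
      linarith
    have h2 : ∑ v, mx g (n + 1) v
        = ∑ v ∈ univ.filter (fun v => 0 < mx g (n + 1) v), mx g (n + 1) v := by
      rw [Finset.sum_filter]
      apply Finset.sum_congr rfl
      intro v _
      by_cases h : 0 < mx g (n + 1) v
      · rw [if_pos h]
      · rw [if_neg h]
        exact le_antisymm (not_lt.1 h) (mx_nonneg g (n + 1) v)
    have h3 : ∑ v ∈ univ.filter (fun v => 0 < mx g (n + 1) v), top (mx g (n + 1)) v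
        ≤ ∑ v, top (mx g (n + 1)) v := by
      apply Finset.sum_le_sum_of_subset_of_nonneg (Finset.filter_subset _ _)
      intro v _ _
      unfold top
      apply div_nonneg _ (Nat.cast_nonneg m)
      exact Finset.sum_nonneg fun a _ => mx_nonneg g (n + 1) _
    rw [sum_top hm] at h3
    have h4 := Finset.sum_le_sum h1
    rw [Finset.sum_sub_distrib] at h4
    linarith

/-! ### Cop averages -/

variable {k : ℕ}

/-- average number of cops met after `j` steps of the walk from `v` -/
noncomputable def fj (C : Fin k → Finset (Fin m)) (j : ℕ) (v : Finset (Fin m)) : ℝ :=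
  ∑ i, q m j (symmDiff v (C i)).card

theorem fj_succ (C : Fin k → Finset (Fin m)) (j : ℕ) (v : Finset (Fin m)) :
    fj C (j + 1) v = top (fj C j) v := by
  unfold fj top
  rw [Finset.sum_comm, Finset.sum_div]
  apply Finset.sum_congr rfl
  intro i _
  have : ∀ a : Fin m, symmDiff (symmDiff v {a}) (C i) = symmDiff (symmDiff v (C i)) {a} := by
    intro a
    rw [symmDiff_assoc, symmDiff_assoc, symmDiff_comm {a} (C i)]
  simp only [this]
  rw [sum_flip (symmDiff v (C i)) (q m j)]
  rfl

theorem sum_fj_zero (C : Fin k → Finset (Fin m)) : ∑ v, fj C 0 v = k := by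
  classical
  unfold fj
  rw [Finset.sum_comm]
  rw [Finset.sum_congr rfl (g := fun _ => (1 : ℝ))]
  · simp
  · intro i _
    rw [Finset.sum_eq_single (C i)]
    · simp [q]
    · intro v _ hv
      have : (symmDiff v (C i)).card ≠ 0 := by
        intro h
        rw [Finset.card_eq_zero] at h
        exact hv (symmDiff_eq_bot.1 h)
      simp [q, this]
    · simp

theorem fj_zero_nonneg (C : Fin k → Finset (Fin m)) (v : Finset (Fin m)) : 0 ≤ fj C 0 v := by
  unfold fj
  apply Finset.sum_nonneg
  intro i _
  exact q_nonneg 0 _ (card_le _)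

theorem psum_le_mx (hm : 0 < m) (C : Fin k → Finset (Fin m)) (lam : ℝ) (j : ℕ) :
    ∀ n, j ≤ n → ∀ v, ∑ i ∈ range j, (fj C i v - lam) ≤ mx (fun v => fj C 0 v - lam) n v := by
  have hm' : (m : ℝ) ≠ 0 := by exact_mod_cast hm.ne'
  induction j with
  | zero =>
    intro n _ v
    simpa using mx_nonneg _ n v
  | succ j ih =>
    intro n hn v
    obtain ⟨n, rfl⟩ : ∃ n', n = n' + 1 := ⟨n - 1, by omega⟩
    refine le_trans ?_ (le_max_right _ _)
    rw [Finset.sum_range_succ']
    have h1 : ∑ i ∈ range j, (fj C (i + 1) v - lam)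
        = top (fun v => ∑ i ∈ range j, (fj C i v - lam)) v := by
      unfold top
      rw [Finset.sum_comm, Finset.sum_div]
      apply Finset.sum_congr rfl
      intro i _
      rw [fj_succ, Finset.sum_sub_distrib, Finset.sum_const, nsmul_eq_mul, Finset.card_univ,
        Fintype.card_fin]
      unfold top
      field_simp
    rw [h1, add_comm]
    have := top_mono (fun v => ih n (by omega) v) v
    linarith

/-- The set of vertices with a bad average is small. -/
theorem bad_small (hm : 0 < m) (C : Fin k → Finset (Fin m)) {lam : ℝ} (n : ℕ) :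
    ∃ E : Finset (Finset (Fin m)), lam * E.card ≤ k ∧
      ∀ v, v ∉ E → ∀ j, j ≤ n → ∑ i ∈ range j, fj C i v ≤ lam * j := by
  classical
  refine ⟨univ.filter (fun v => 0 < mx (fun v => fj C 0 v - lam) n v), ?_, ?_⟩
  · have h := garsia hm (fun v => fj C 0 v - lam) n
    rw [Finset.sum_sub_distrib, Finset.sum_const, nsmul_eq_mul] at h
    have h2 : ∑ v ∈ univ.filter (fun v => 0 < mx (fun v => fj C 0 v - lam) n v), fj C 0 v
        ≤ ∑ v, fj C 0 v := by
      apply Finset.sum_le_sum_of_subset_of_nonneg (Finset.filter_subset _ _)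
      intro v _ _
      exact fj_zero_nonneg C v
    rw [sum_fj_zero] at h2
    linarith
  · intro v hv j hj
    have h := psum_le_mx hm C lam j n hj v
    have h0 : mx (fun v => fj C 0 v - lam) n v ≤ 0 := by
      by_contra hc
      push Not at hc
      exact hv (Finset.mem_filter.2 ⟨Finset.mem_univ _, hc⟩)
    rw [Finset.sum_sub_distrib, Finset.sum_const, nsmul_eq_mul, Finset.card_range] at h
    linarith

/-- potential of the cops within distance `s` -/
noncomputable def wt (C : Fin k → Finset (Fin m)) (v : Finset (Fin m)) (s : ℕ) : ℝ :=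
  ∑ i, if (symmDiff v (C i)).card ≤ s then 1 / (m.choose (symmDiff v (C i)).card : ℝ) else 0

theorem wt_le (hm : 0 < m) (C : Fin k → Finset (Fin m)) (v : Finset (Fin m)) (lam : ℝ) (n : ℕ)
    (hv : ∀ j, j ≤ n → ∑ i ∈ range j, fj C i v ≤ lam * j) (s : ℕ) (hs : 8 * (s + 1) ≤ m)
    (hn : 4 * (s + 1) ≤ n) : wt C v s ≤ 16 * (s + 1) * lam := by
  have h1 := hv (4 * (s + 1)) hn
  have h2 : wt C v s ≤ 4 * ∑ i ∈ range (4 * (s + 1)), fj C i v := by
    unfold wt fj
    rw [Finset.sum_comm, Finset.mul_sum]
    apply Finset.sum_le_sum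
    intro i _
    have hd : (symmDiff v (C i)).card ≤ m := card_le _
    have hch : (0 : ℝ) < (m.choose (symmDiff v (C i)).card : ℝ) := by
      exact_mod_cast Nat.choose_pos hd
    split_ifs with h
    · have := visits hm s hs _ h
      rw [← Finset.mul_sum] at this
      rw [div_le_iff₀ hch]
      linarith
    · apply mul_nonneg (by norm_num)
      apply Finset.sum_nonneg
      intro j _
      exact q_nonneg j _ hd
  push_cast at h1
  linarith

/-- total potential, on average -/
theorem sum_wt (C : Fin k → Finset (Fin m)) : ∑ v, wt C v m = k * (m + 1) := by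
  classical
  unfold wt
  rw [Finset.sum_comm]
  rw [Finset.sum_congr rfl (g := fun _ => ((m : ℝ) + 1))]
  · rw [Finset.sum_const, nsmul_eq_mul, Finset.card_univ, Fintype.card_fin]
  · intro i _
    have h1 : ∑ v : Finset (Fin m), (if (symmDiff v (C i)).card ≤ m
          then 1 / (m.choose (symmDiff v (C i)).card : ℝ) else 0)
        = ∑ v : Finset (Fin m), 1 / (m.choose v.card : ℝ) := by
      refine Fintype.sum_equiv (Function.Involutive.toPerm (fun v => symmDiff v (C i)) (fun v => by
        show symmDiff (symmDiff v (C i)) (C i) = v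
        rw [symmDiff_assoc, symmDiff_self, symmDiff_bot])) _ _ (fun v => ?_)
      rw [if_pos (card_le _)]
      rfl
    rw [h1, ← Finset.powerset_univ, Finset.sum_powerset]
    rw [Finset.card_univ, Fintype.card_fin]
    rw [Finset.sum_congr rfl (g := fun _ => (1 : ℝ))]
    · simp
    · intro t ht
      rw [Finset.sum_congr rfl (g := fun _ => 1 / (m.choose t : ℝ))]
      · rw [Finset.sum_const, Finset.card_powersetCard, Finset.card_univ, Fintype.card_fin,
          nsmul_eq_mul]
        have : (m.choose t : ℝ) ≠ 0 := by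
          have : t ≤ m := by
            have := Finset.mem_range.1 ht
            omega
          exact_mod_cast (Nat.choose_pos this).ne'
        field_simp
      · intro v hv
        rw [(Finset.mem_powersetCard.1 hv).2]

end Pool.Agent.H.MP_b23ae3_co
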