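import Mathlib

set_option autoImplicit false

open Finset

namespace Pool.Agent.H.MP_b23ae3_co

variable {m : ℕ}

open scoped Classical in
/-- probability of an event for a uniformly random permutation of `Fin m` -/
noncomputable def pr (p : Equiv.Perm (Fin m) → Prop) : ℝ :=
  (∑ σ, (if p σ then (1 : ℝ) else 0)) / (m.factorial : ℝ)

/-- image of a set under a permutation -/
def img (σ : Equiv.Perm (Fin m)) (A : Finset (Fin m)) : Finset (Fin m) := A.map σ.toEmbedding

theorem card_img (σ : Equiv.Perm (Fin m)) (A : Finset (Fin m)) : (img σ A).card = A.card :=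
  Finset.card_map _

theorem img_mul (σ τ : Equiv.Perm (Fin m)) (A : Finset (Fin m)) :
    img (σ * τ) A = img σ (img τ A) := by
  unfold img
  rw [Finset.map_map]
  rfl

theorem img_one (A : Finset (Fin m)) : img 1 A = A := by
  unfold img
  exact Finset.map_refl

theorem img_insert (σ : Equiv.Perm (Fin m)) (A : Finset (Fin m)) (a : Fin m) :
    img σ (insert a A) = insert (σ a) (img σ A) := by
  simp [img, Finset.map_insert]

theorem img_erase (σ : Equiv.Perm (Fin m)) (A : Finset (Fin m)) (a : Fin m) :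
    img σ (A.erase a) = (img σ A).erase (σ a) := by
  simp [img, Finset.map_erase]

theorem fact_pos : (0 : ℝ) < (m.factorial : ℝ) := by exact_mod_cast m.factorial_pos

theorem pr_nonneg (p : Equiv.Perm (Fin m) → Prop) : 0 ≤ pr p := by
  classical
  unfold pr
  apply div_nonneg _ fact_pos.le
  apply Finset.sum_nonneg
  intro σ _
  split_ifs <;> norm_num

theorem pr_mono {p q : Equiv.Perm (Fin m) → Prop} (h : ∀ σ, p σ → q σ) : pr p ≤ pr q := by
  classical
  unfold pr
  apply div_le_div_of_nonneg_right _ fact_pos.le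
  apply Finset.sum_le_sum
  intro σ _
  by_cases h1 : p σ
  · rw [if_pos h1, if_pos (h σ h1)]
  · rw [if_neg h1]
    split_ifs <;> norm_num

theorem pr_congr {p q : Equiv.Perm (Fin m) → Prop} (h : ∀ σ, p σ ↔ q σ) : pr p = pr q :=
  le_antisymm (pr_mono fun σ => (h σ).1) (pr_mono fun σ => (h σ).2)

theorem pr_or_le (p q : Equiv.Perm (Fin m) → Prop) : pr (fun σ => p σ ∨ q σ) ≤ pr p + pr q := by
  classical
  unfold pr
  rw [← add_div]
  apply div_le_div_of_nonneg_right _ fact_pos.le
  rw [← Finset.sum_add_distrib]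
  apply Finset.sum_le_sum
  intro σ _
  by_cases h1 : p σ <;> by_cases h2 : q σ <;> simp [h1, h2]

theorem pr_split (p q : Equiv.Perm (Fin m) → Prop) :
    pr p = pr (fun σ => p σ ∧ q σ) + pr (fun σ => p σ ∧ ¬ q σ) := by
  classical
  unfold pr
  rw [← add_div]
  congr 1
  rw [← Finset.sum_add_distrib]
  apply Finset.sum_congr rfl
  intro σ _
  by_cases h1 : p σ <;> by_cases h2 : q σ <;> simp [h1, h2]

theorem pr_true : pr (fun _ : Equiv.Perm (Fin m) => True) = 1 := by
  classical
  unfold pr
  simp only [if_true, Finset.sum_const, Finset.card_univ, nsmul_eq_mul, mul_one]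
  rw [Fintype.card_perm, Fintype.card_fin]
  exact div_self fact_pos.ne'

theorem pr_false : pr (fun _ : Equiv.Perm (Fin m) => False) = 0 := by
  classical
  unfold pr
  simp

theorem pr_compl (p : Equiv.Perm (Fin m) → Prop) : pr (fun σ => ¬ p σ) = 1 - pr p := by
  have h := pr_split (fun _ : Equiv.Perm (Fin m) => True) p
  rw [pr_true] at h
  have e1 : pr (fun σ => True ∧ p σ) = pr p := pr_congr fun σ => by simp
  have e2 : pr (fun σ => True ∧ ¬ p σ) = pr (fun σ => ¬ p σ) := pr_congr fun σ => by simp
  rw [e1, e2] at h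
  linarith

theorem pr_le_one (p : Equiv.Perm (Fin m) → Prop) : pr p ≤ 1 := by
  have := pr_compl p
  have := pr_nonneg (fun σ => ¬ p σ)
  linarith

theorem pr_reindex (τ : Equiv.Perm (Fin m)) (p : Equiv.Perm (Fin m) → Prop) :
    pr (fun σ => p (σ * τ)) = pr p := by
  classical
  unfold pr
  congr 1
  exact Fintype.sum_equiv (Equiv.mulRight τ) _ _ (fun σ => rfl)

theorem exists_perm_map {A B : Finset (Fin m)} (h : A.card = B.card) :
    ∃ τ : Equiv.Perm (Fin m), img τ A = B := by
  classical
  let e : {x // x ∈ A} ≃ {x // x ∈ B} := Finset.equivOfCardEq h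
  refine ⟨e.extendSubtype, ?_⟩
  have hsub : img e.extendSubtype A ⊆ B := by
    intro y hy
    simp only [img, Finset.mem_map, Equiv.coe_toEmbedding] at hy
    obtain ⟨x, hx, rfl⟩ := hy
    exact e.extendSubtype_mem x hx
  exact Finset.eq_of_subset_of_card_le hsub (by rw [card_img, h])

theorem img_swap_of_mem {A : Finset (Fin m)} {a b : Fin m} (ha : a ∈ A) (hb : b ∈ A) :
    img (Equiv.swap a b) A = A := by
  apply Finset.eq_of_subset_of_card_le
  · intro y hy
    simp only [img, Finset.mem_map, Equiv.coe_toEmbedding] at hy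
    obtain ⟨x, hx, rfl⟩ := hy
    by_cases h1 : x = a
    · subst h1; rw [Equiv.swap_apply_left]; exact hb
    · by_cases h2 : x = b
      · subst h2; rw [Equiv.swap_apply_right]; exact ha
      · rw [Equiv.swap_apply_of_ne_of_ne h1 h2]; exact hx
  · rw [card_img]

theorem img_swap_of_not_mem {A : Finset (Fin m)} {a b : Fin m} (ha : a ∉ A) (hb : b ∉ A) :
    img (Equiv.swap a b) A = A := by
  apply Finset.eq_of_subset_of_card_le
  · intro y hy
    simp only [img, Finset.mem_map, Equiv.coe_toEmbedding] at hy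
    obtain ⟨x, hx, rfl⟩ := hy
    have h1 : x ≠ a := fun h => ha (h ▸ hx)
    have h2 : x ≠ b := fun h => hb (h ▸ hx)
    rw [Equiv.swap_apply_of_ne_of_ne h1 h2]; exact hx
  · rw [card_img]

theorem mem_img {σ : Equiv.Perm (Fin m)} {A : Finset (Fin m)} {a : Fin m} :
    σ a ∈ img σ A ↔ a ∈ A := by
  simp [img]

theorem exists_perm_map_pair {A B : Finset (Fin m)} {a a' b b' : Fin m} (h : A.card = B.card)
    (ha : a ∈ A) (ha' : a' ∉ A) (hb : b ∈ B) (hb' : b' ∉ B) :
    ∃ τ : Equiv.Perm (Fin m), img τ A = B ∧ τ a = b ∧ τ a' = b' := by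
  obtain ⟨τ, hτ⟩ := exists_perm_map h
  have h1 : τ a ∈ B := by rw [← hτ]; exact mem_img.2 ha
  have h2 : τ a' ∉ B := by rw [← hτ]; exact fun h => ha' (mem_img.1 h)
  refine ⟨Equiv.swap (τ a) b * (Equiv.swap (τ a') b' * τ), ?_, ?_, ?_⟩
  · rw [img_mul, img_mul, hτ, img_swap_of_not_mem h2 hb', img_swap_of_mem h1 hb]
  · rw [Equiv.Perm.mul_apply, Equiv.Perm.mul_apply,
      Equiv.swap_apply_of_ne_of_ne (a := τ a') (b := b') (x := τ a)
        (fun e => h2 (e ▸ h1)) (fun e => hb' (e ▸ h1)), Equiv.swap_apply_left]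
  · rw [Equiv.Perm.mul_apply, Equiv.Perm.mul_apply, Equiv.swap_apply_left,
      Equiv.swap_apply_of_ne_of_ne (fun e => hb' (by rw [e]; exact h1))
        (fun e => hb' (by rw [e]; exact hb))]

/-- the image map is a bijection of the sets of size `t` -/
theorem sum_img (σ : Equiv.Perm (Fin m)) (t : ℕ) (f : Finset (Fin m) → ℝ) :
    ∑ A ∈ powersetCard t univ, f (img σ A) = ∑ A ∈ powersetCard t univ, f A := by
  refine Finset.sum_nbij' (fun A => img σ A) (fun A => img σ⁻¹ A) ?_ ?_ ?_ ?_ ?_
  · intro A hA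
    rw [mem_powersetCard_univ] at hA ⊢
    rw [card_img]; exact hA
  · intro A hA
    rw [mem_powersetCard_univ] at hA ⊢
    rw [card_img]; exact hA
  · intro A _
    show img σ⁻¹ (img σ A) = A
    rw [← img_mul, inv_mul_cancel, img_one]
  · intro A _
    show img σ (img σ⁻¹ A) = A
    rw [← img_mul, mul_inv_cancel, img_one]
  · intro A _; rfl

theorem pr_img_eq (p : Finset (Fin m) → Prop) {A B : Finset (Fin m)} (h : A.card = B.card) :
    pr (fun σ => p (img σ A)) = pr (fun σ => p (img σ B)) := by
  obtain ⟨τ, hτ⟩ := exists_perm_map h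
  rw [← hτ]
  have := pr_reindex τ (fun σ => p (img σ A))
  simp only [img_mul] at this
  exact this.symm

open scoped Classical in
theorem choose_mul_pr (p : Finset (Fin m) → Prop) (A : Finset (Fin m)) :
    (m.choose A.card : ℝ) * pr (fun σ => p (img σ A))
      = ∑ B ∈ powersetCard A.card (univ : Finset (Fin m)), (if p B then (1 : ℝ) else 0) := by
  have h1 : ∑ B ∈ powersetCard A.card (univ : Finset (Fin m)), pr (fun σ => p (img σ B))
      = (m.choose A.card : ℝ) * pr (fun σ => p (img σ A)) := by
    rw [Finset.sum_congr rfl (g := fun _ => pr (fun σ => p (img σ A)))]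
    · rw [Finset.sum_const, card_powersetCard, nsmul_eq_mul, card_univ, Fintype.card_fin]
    · intro B hB
      rw [mem_powersetCard_univ] at hB
      exact pr_img_eq p hB
  rw [← h1]
  unfold pr
  rw [← Finset.sum_div, Finset.sum_comm]
  rw [Finset.sum_congr rfl (g := fun _ =>
    ∑ B ∈ powersetCard A.card (univ : Finset (Fin m)), (if p B then (1 : ℝ) else 0))]
  · rw [Finset.sum_const, nsmul_eq_mul, card_univ, Fintype.card_perm, Fintype.card_fin]
    rw [mul_comm, mul_div_assoc, div_self fact_pos.ne', mul_one]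
  · intro σ _
    rw [sum_img σ A.card (fun B => if p B then (1 : ℝ) else 0)]

/-- crossing probability -/
noncomputable def cr (p : Finset (Fin m) → Prop) (A B : Finset (Fin m)) : ℝ :=
  pr (fun σ => p (img σ A) ∧ ¬ p (img σ B))

theorem cr_nonneg (p : Finset (Fin m) → Prop) (A B : Finset (Fin m)) : 0 ≤ cr p A B :=
  pr_nonneg _

theorem cr_self (p : Finset (Fin m) → Prop) (A : Finset (Fin m)) : cr p A A = 0 := by
  unfold cr
  rw [pr_congr (q := fun _ => False) (fun σ => by simp), pr_false]

theorem cr_tri (p : Finset (Fin m) → Prop) (A B C : Finset (Fin m)) :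
    cr p A C ≤ cr p A B + cr p B C := by
  unfold cr
  refine le_trans (pr_mono ?_) (pr_or_le _ _)
  rintro σ ⟨h1, h2⟩
  by_cases h : p (img σ B)
  · right; exact ⟨h, h2⟩
  · left; exact ⟨h1, h⟩

theorem cr_johnson (p : Finset (Fin m) → Prop) {A B : Finset (Fin m)} {a a' b b' : Fin m}
    (h : A.card = B.card) (ha : a ∈ A) (ha' : a' ∉ A) (hb : b ∈ B) (hb' : b' ∉ B) :
    cr p A (insert a' (A.erase a)) = cr p B (insert b' (B.erase b)) := by
  obtain ⟨τ, hτ, h1, h2⟩ := exists_perm_map_pair h ha ha' hb hb'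
  unfold cr
  have := pr_reindex τ (fun σ => p (img σ A) ∧ ¬ p (img σ (insert a' (A.erase a))))
  rw [← this]
  apply pr_congr
  intro σ
  rw [img_mul, img_mul, img_insert τ, img_erase τ, hτ, h1, h2]

theorem cr_le_dist (p : Finset (Fin m) → Prop) {A : Finset (Fin m)} {a a' : Fin m}
    (ha : a ∈ A) (ha' : a' ∉ A) (n : ℕ) :
    ∀ B C : Finset (Fin m), B.card = A.card → C.card = A.card → (B \ C).card = n →
      cr p B C ≤ n * cr p A (insert a' (A.erase a)) := by
  induction n with
  | zero =>
    intro B C hB hC h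
    rw [Finset.card_eq_zero, Finset.sdiff_eq_empty_iff_subset] at h
    have : B = C := Finset.eq_of_subset_of_card_le h (by omega)
    subst this
    rw [cr_self]; simp
  | succ n ih =>
    intro B C hB hC h
    obtain ⟨b, hb⟩ : (B \ C).Nonempty := by
      rw [← Finset.card_pos]; omega
    have h2 : (C \ B).card = n + 1 := by
      have := Finset.card_sdiff_comm (s := B) (t := C) (by omega)
      omega
    obtain ⟨c, hc⟩ : (C \ B).Nonempty := by
      rw [← Finset.card_pos]; omega
    rw [Finset.mem_sdiff] at hb hc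
    have h3 : (insert c (B.erase b)).card = A.card := by
      rw [Finset.card_insert_of_notMem (by
        rw [Finset.mem_erase]; exact fun h => hc.2 h.2), Finset.card_erase_of_mem hb.1]
      have : 0 < B.card := Finset.card_pos.2 ⟨b, hb.1⟩
      omega
    have h4 : (insert c (B.erase b)) \ C = (B \ C).erase b := by
      ext x
      simp only [Finset.mem_sdiff, Finset.mem_insert, Finset.mem_erase]
      constructor
      · rintro ⟨h | h, h'⟩
        · exact absurd (h ▸ hc.1) h'
        · exact ⟨h.1, h.2, h'⟩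
      · rintro ⟨h1, h2, h3⟩
        exact ⟨Or.inr ⟨h1, h2⟩, h3⟩
    have h5 : ((insert c (B.erase b)) \ C).card = n := by
      rw [h4, Finset.card_erase_of_mem (Finset.mem_sdiff.2 hb), h]
      omega
    have h6 := ih _ C h3 hC h5
    have h7 := cr_johnson p hB hb.1 hc.2 ha ha'
    have h8 := cr_tri p B (insert c (B.erase b)) C
    push_cast
    rw [h7] at h8
    linarith

/-- Poincare inequality on the sphere of `t`-sets, `t = A.card`. -/
theorem poincare (p : Finset (Fin m) → Prop) {A : Finset (Fin m)} {a a' : Fin m}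
    (ha : a ∈ A) (ha' : a' ∉ A) :
    pr (fun σ => p (img σ A)) * (1 - pr (fun σ => p (img σ A)))
      ≤ A.card * cr p A (insert a' (A.erase a)) := by
  classical
  set κ := cr p A (insert a' (A.erase a)) with hκ
  set x := pr (fun σ => p (img σ A)) with hx
  have hN : (0 : ℝ) < (m.choose A.card : ℝ) := by
    have : A.card ≤ m := by
      have := Finset.card_le_univ A
      rwa [Fintype.card_fin] at this
    exact_mod_cast Nat.choose_pos this
  have hκ0 : 0 ≤ κ := cr_nonneg _ _ _
  -- upper bound for the sum of crossing probabilities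
  have h1 : ∑ C ∈ powersetCard A.card (univ : Finset (Fin m)), cr p A C
      ≤ (m.choose A.card : ℝ) * (A.card * κ) := by
    calc ∑ C ∈ powersetCard A.card (univ : Finset (Fin m)), cr p A C
        ≤ ∑ _C ∈ powersetCard A.card (univ : Finset (Fin m)), ((A.card : ℝ) * κ) := by
          apply Finset.sum_le_sum
          intro C hC
          rw [mem_powersetCard_univ] at hC
          refine (cr_le_dist p ha ha' _ A C rfl hC rfl).trans ?_
          apply mul_le_mul_of_nonneg_right _ hκ0
          exact_mod_cast Finset.card_le_card Finset.sdiff_subset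
      _ = _ := by
          rw [Finset.sum_const, card_powersetCard, nsmul_eq_mul, card_univ, Fintype.card_fin]
  -- exact value
  have h2 : ∑ C ∈ powersetCard A.card (univ : Finset (Fin m)), cr p A C
      = x * ((m.choose A.card : ℝ) * (1 - x)) := by
    have e1 : (m.choose A.card : ℝ) * (1 - x)
        = ∑ B ∈ powersetCard A.card (univ : Finset (Fin m)), (if p B then (0 : ℝ) else 1) := by
      rw [hx, ← pr_compl (fun σ => p (img σ A)), choose_mul_pr (fun B => ¬ p B) A]
      apply Finset.sum_congr rfl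
      intro B _
      by_cases h : p B <;> simp [h]
    rw [e1]
    simp only [cr, pr]
    rw [← Finset.sum_div, Finset.sum_comm, hx]
    unfold pr
    rw [div_mul_eq_mul_div, Finset.sum_mul]
    congr 1
    apply Finset.sum_congr rfl
    intro σ _
    rw [← sum_img σ A.card (fun B => if p B then (0 : ℝ) else 1), Finset.mul_sum]
    apply Finset.sum_congr rfl
    intro B _
    by_cases h1 : p (img σ A) <;> by_cases h2 : p (img σ B) <;> simp [h1, h2]
  rw [h2] at h1
  have h3 : (m.choose A.card : ℝ) * (x * (1 - x)) ≤ (m.choose A.card : ℝ) * (A.card * κ) := by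
    linarith
  exact le_of_mul_le_mul_left h3 hN

/-- One step from the `t`-sets to the `t+1`-sets. -/
theorem one_step (p : Finset (Fin m) → Prop) (U : Finset (Fin m)) (t : ℕ) (hU : U.card = t + 1)
    (ht : 1 ≤ t) (x : ℝ) (hx : ∀ A : Finset (Fin m), A.card = t → pr (fun σ => p (img σ A)) = x) :
    pr (fun σ => ∀ a ∈ img σ U, p ((img σ U).erase a)) ≤ x - x * (1 - x) / t := by
  classical
  obtain ⟨a, b, ha, hb, hab⟩ : ∃ a b, a ∈ U ∧ b ∈ U ∧ a ≠ b := by
    have : 1 < U.card := by omega
    obtain ⟨a, ha, b, hb, h⟩ := Finset.one_lt_card.1 this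
    exact ⟨a, b, ha, hb, h⟩
  have hca : (U.erase b).card = t := by rw [Finset.card_erase_of_mem hb, hU]; rfl
  have hmem : a ∈ U.erase b := Finset.mem_erase.2 ⟨hab, ha⟩
  have hnm : b ∉ U.erase b := Finset.notMem_erase _ _
  have he : insert b ((U.erase b).erase a) = U.erase a := by
    ext y
    simp only [Finset.mem_insert, Finset.mem_erase]
    constructor
    · rintro (rfl | ⟨h1, h2, h3⟩)
      · exact ⟨hab.symm, hb⟩
      · exact ⟨h1, h3⟩
    · rintro ⟨h1, h2⟩
      by_cases h : y = b
      · left; exact h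
      · right; exact ⟨h1, h, h2⟩
  have h1 := poincare p hmem hnm
  rw [he, hca, hx _ hca] at h1
  have h2 := pr_split (fun σ => p (img σ (U.erase b))) (fun σ => p (img σ (U.erase a)))
  rw [hx _ hca] at h2
  have h3 : pr (fun σ => ∀ a ∈ img σ U, p ((img σ U).erase a))
      ≤ pr (fun σ => p (img σ (U.erase b)) ∧ p (img σ (U.erase a))) := by
    apply pr_mono
    intro σ h
    rw [img_erase, img_erase]
    exact ⟨h _ (mem_img.2 hb), h _ (mem_img.2 ha)⟩
  have h4 : pr (fun σ => p (img σ (U.erase b)) ∧ ¬ p (img σ (U.erase a)))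
      = cr p (U.erase b) (U.erase a) := rfl
  rw [h4] at h2
  have ht' : (0 : ℝ) < t := by exact_mod_cast ht
  have h5 : x * (1 - x) / t ≤ cr p (U.erase b) (U.erase a) := by
    rw [div_le_iff₀ ht']
    linarith
  linarith

end Pool.Agent.H.MP_b23ae3_co
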