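import Pool.Agent.H.MP_b23ae3_co.Game
import Pool.Agent.H.MP_b23ae3_co.Sphere
import Pool.Agent.H.MP_b23ae3_co.Ergodic

set_option autoImplicit false

open Finset

namespace Pool.Agent.H.MP_b23ae3_co

variable {m k : ℕ}

/-- the cube on subsets of `Fin m` -/
def cube (m : ℕ) : SimpleGraph (Finset (Fin m)) where
  Adj A B := (symmDiff A B).card = 1
  symm := ⟨fun A B h => by rw [symmDiff_comm]; exact h⟩
  loopless := ⟨fun A h => by simp at h⟩

/-! ### Real sequences -/

theorem seq_bound (x b : ℕ → ℝ) (T : ℕ) (hx0 : ∀ t, 0 ≤ x t) (h1 : x 1 ≤ b 1)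
    (hstep : ∀ t, 1 ≤ t → t < T → x (t + 1) ≤ x t - x t * (1 - x t) / t + b (t + 1))
    (hG : ∀ s, 1 ≤ s → s ≤ T → ∑ j ∈ range s, ((j + 1 : ℕ) : ℝ) * b (j + 1) ≤ 7 / 64 * s) :
    ∀ t, 1 ≤ t → t ≤ T → x t ≤ 1 / 8 := by
  have key : ∀ t, 1 ≤ t → t ≤ T →
      (t : ℝ) * x t ≤ ((t : ℝ) - 1) / 64 + ∑ j ∈ range t, ((j + 1 : ℕ) : ℝ) * b (j + 1)
        ∧ x t ≤ 1 / 8 := by
    intro t ht
    induction t, ht using Nat.le_induction with
    | base =>
      intro hT
      have h2 := hG 1 le_rfl hT
      simp only [Finset.sum_range_one, Nat.cast_one, zero_add, one_mul] at h2 ⊢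
      constructor
      · linarith
      · linarith
    | succ t ht ih =>
      intro hT
      obtain ⟨ih1, ih2⟩ := ih (by omega)
      have ht0 : (0 : ℝ) < t := by exact_mod_cast ht
      have hs := hstep t ht (by omega)
      have hx := hx0 t
      have h3 : x t * (7 / 8) ≤ x t * (1 - x t) := mul_le_mul_of_nonneg_left (by linarith) hx
      have h4 : x t * (7 / 8) / t ≤ x t * (1 - x t) / t := div_le_div_of_nonneg_right h3 ht0.le
      have h5 : x (t + 1) ≤ x t - x t * (7 / 8) / t + b (t + 1) := by linarith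
      have h6 : ((t : ℝ) + 1) * x (t + 1)
          ≤ ((t : ℝ) + 1) * (x t - x t * (7 / 8) / t + b (t + 1)) :=
        mul_le_mul_of_nonneg_left h5 (by linarith)
      have h7 : ((t : ℝ) + 1) * (x t * (7 / 8) / t) = x t * (7 / 8) + x t * (7 / 8) / t := by
        field_simp
      have h8 : 0 ≤ x t * (7 / 8) / t := by positivity
      have h9 : (((t + 1 : ℕ) : ℝ)) * x (t + 1) ≤ (((t + 1 : ℕ) : ℝ) - 1) / 64
          + ∑ j ∈ range (t + 1), ((j + 1 : ℕ) : ℝ) * b (j + 1) := by
        rw [Finset.sum_range_succ]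
        push_cast
        push_cast at ih1
        nlinarith
      refine ⟨h9, ?_⟩
      have h10 := hG (t + 1) (by omega) hT
      push_cast at h9 h10
      have h11 : ((t : ℝ) + 1) * x (t + 1) ≤ ((t : ℝ) + 1) * (1 / 8) := by
        linarith
      exact le_of_mul_le_mul_left h11 (by linarith)
  exact fun t ht hT => (key t ht hT).2

/-! ### Binomial coefficients -/

theorem choose_near_one {d d' s : ℕ} (h : d = d' ∨ d + 1 = d' ∨ d = d' + 1) (h1 : 1 ≤ d')
    (h2 : 2 * d' ≤ m) (_h3 : d' ≤ s) : d' * m.choose d ≤ m * m.choose d' := by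
  rcases h with h | h | h
  · subst h
    exact Nat.mul_le_mul_right _ (by omega)
  · subst h
    have e := Nat.choose_succ_right_eq m d
    have h4 : m.choose d * (d + 1) ≤ m.choose (d + 1) * (d + 1) := by
      rw [e]
      exact Nat.mul_le_mul_left _ (by omega)
    have h5 : m.choose d ≤ m.choose (d + 1) := Nat.le_of_mul_le_mul_right h4 (by omega)
    exact Nat.mul_le_mul (by omega) h5
  · subst h
    have e := Nat.choose_succ_right_eq m d'
    calc d' * m.choose (d' + 1) ≤ (d' + 1) * m.choose (d' + 1) := Nat.mul_le_mul_right _ (by omega)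
      _ = m.choose d' * (m - d') := by rw [mul_comm, e]
      _ ≤ m.choose d' * m := Nat.mul_le_mul_left _ (by omega)
      _ = m * m.choose d' := mul_comm _ _

theorem choose_near_two {d d' : ℕ} (h : d = d' ∨ d + 1 = d' ∨ d = d' + 1)
    (h2 : m ≤ 16 * (d' + 1)) (h3 : 4 * d' ≤ 3 * m) : m.choose d ≤ 16 * m.choose d' := by
  rcases h with h | h | h
  · subst h; omega
  · subst h
    have e := Nat.choose_succ_right_eq m d
    have h4 : m.choose d * (m - d) ≤ (16 * m.choose (d + 1)) * (m - d) := by
      rw [← e]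
      calc m.choose (d + 1) * (d + 1) ≤ m.choose (d + 1) * (16 * (m - d)) :=
            Nat.mul_le_mul_left _ (by omega)
        _ = _ := by ring
    exact Nat.le_of_mul_le_mul_right h4 (by omega)
  · subst h
    have e := Nat.choose_succ_right_eq m d'
    have h4 : m.choose (d' + 1) * (d' + 1) ≤ (16 * m.choose d') * (d' + 1) := by
      rw [e]
      calc m.choose d' * (m - d') ≤ m.choose d' * (16 * (d' + 1)) :=
            Nat.mul_le_mul_left _ (by omega)
        _ = _ := by ring
    exact Nat.le_of_mul_le_mul_right h4 (by omega)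

theorem chebyshev (hm : 14 ≤ m) :
    3 * ∑ t ∈ (range (m + 1)).filter (fun t => 3 * m / 4 < t), (m.choose t : ℝ) < 2 ^ m := by
  have hm0 : (0 : ℝ) < m := by exact_mod_cast (by omega : 0 < m)
  have h := congrArg (Polynomial.eval (1 / 2 : ℝ)) (bernsteinPolynomial.variance ℝ m)
  rw [Polynomial.eval_finsetSum] at h
  have h1 : ∀ t ∈ range (m + 1), Polynomial.eval (1 / 2 : ℝ)
      ((m • Polynomial.X - (t : Polynomial ℝ)) ^ 2 * bernsteinPolynomial ℝ m t)
      = ((m : ℝ) / 2 - t) ^ 2 * (m.choose t : ℝ) * (1 / 2) ^ m := by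
    intro t ht
    have htm : t ≤ m := by
      have := Finset.mem_range.1 ht
      omega
    have e : (1 / 2 : ℝ) ^ m = (1 / 2) ^ t * (1 / 2) ^ (m - t) := by
      rw [← pow_add]; congr 1; omega
    rw [e]
    simp only [bernsteinPolynomial, Polynomial.eval_mul, Polynomial.eval_pow, Polynomial.eval_sub,
      Polynomial.eval_X, Polynomial.eval_one, nsmul_eq_mul, Polynomial.eval_natCast]
    ring
  rw [Finset.sum_congr rfl h1, ← Finset.sum_mul] at h
  simp only [Polynomial.eval_mul, Polynomial.eval_sub, Polynomial.eval_X, Polynomial.eval_one,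
    nsmul_eq_mul, Polynomial.eval_natCast] at h
  have hp : (0 : ℝ) < 2 ^ m := by positivity
  have h2 : ∑ t ∈ range (m + 1), ((m : ℝ) / 2 - t) ^ 2 * (m.choose t : ℝ) = (m : ℝ) / 4 * 2 ^ m := by
    have e : ((1 : ℝ) / 2) ^ m = 1 / 2 ^ m := by rw [div_pow, one_pow]
    rw [e, mul_one_div, div_eq_iff hp.ne'] at h
    rw [h]
    ring
  have h3 : ∑ t ∈ (range (m + 1)).filter (fun t => 3 * m / 4 < t), ((m : ℝ) / 4) ^ 2
      * (m.choose t : ℝ) ≤ (m : ℝ) / 4 * 2 ^ m := by
    rw [← h2]
    calc ∑ t ∈ (range (m + 1)).filter (fun t => 3 * m / 4 < t), ((m : ℝ) / 4) ^ 2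
          * (m.choose t : ℝ)
        ≤ ∑ t ∈ (range (m + 1)).filter (fun t => 3 * m / 4 < t), ((m : ℝ) / 2 - t) ^ 2
          * (m.choose t : ℝ) := by
          apply Finset.sum_le_sum
          intro t ht
          apply mul_le_mul_of_nonneg_right _ (Nat.cast_nonneg _)
          have h4 := (Finset.mem_filter.1 ht).2
          have h5 : 3 * m < 4 * t := by omega
          have h6 : (3 : ℝ) * m < 4 * t := by exact_mod_cast h5
          have h7 : (m : ℝ) / 4 ≤ t - m / 2 := by linarith
          have h8 : ((m : ℝ) / 2 - t) ^ 2 = (t - m / 2) ^ 2 := by ring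
          rw [h8]
          exact pow_le_pow_left₀ (by positivity) h7 2
      _ ≤ _ := by
          apply Finset.sum_le_sum_of_subset_of_nonneg (Finset.filter_subset _ _)
          intro t _ _
          positivity
  rw [← Finset.mul_sum] at h3
  set X := ∑ t ∈ (range (m + 1)).filter (fun t => 3 * m / 4 < t), (m.choose t : ℝ) with hX
  have h4 : (m : ℝ) / 4 * ((m : ℝ) / 4 * X) ≤ m / 4 * 2 ^ m := by
    calc (m : ℝ) / 4 * ((m : ℝ) / 4 * X) = ((m : ℝ) / 4) ^ 2 * X := by ring
      _ ≤ _ := h3
  have h5 : (m : ℝ) / 4 * X ≤ 2 ^ m := le_of_mul_le_mul_left h4 (by positivity)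
  have h6 : (14 : ℝ) ≤ m := by exact_mod_cast hm
  have h7 : 0 ≤ X := Finset.sum_nonneg fun t _ => Nat.cast_nonneg _
  nlinarith

/-! ### The main geometric argument -/

theorem exists_card {t : ℕ} (h : t ≤ m) : ∃ A : Finset (Fin m), A.card = t := by
  obtain ⟨A, _, hA⟩ := Finset.exists_subset_card_eq (s := (univ : Finset (Fin m))) (n := t)
    (by rw [Finset.card_univ, Fintype.card_fin]; exact h)
  exact ⟨A, hA⟩

open scoped Classical in
/-- a set with `t` elements -/
noncomputable def As (m t : ℕ) : Finset (Fin m) :=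
  if h : t ≤ m then Classical.choose (exists_card h) else ∅

theorem card_As {t : ℕ} (h : t ≤ m) : (As m t).card = t := by
  unfold As
  rw [dif_pos h]
  exact Classical.choose_spec (exists_card h)

/-- density of the property `p` in the sphere of radius `t` -/
noncomputable def xs (p : Finset (Fin m) → Prop) (t : ℕ) : ℝ := pr (fun σ => p (img σ (As m t)))

theorem xs_eq (p : Finset (Fin m) → Prop) {t : ℕ} (ht : t ≤ m) {A : Finset (Fin m)}
    (hA : A.card = t) : pr (fun σ => p (img σ A)) = xs p t :=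
  pr_img_eq p (by rw [hA, card_As ht])

theorem dist_step {G : Type*} (v A B : Finset (Fin m)) (_g : Option G)
    (h : (symmDiff A B).card = 1) :
    (symmDiff v A).card + 1 = (symmDiff v B).card ∨
      (symmDiff v A).card = (symmDiff v B).card + 1 := by
  obtain ⟨a, ha⟩ := Finset.card_eq_one.1 h
  have e : symmDiff v B = symmDiff (symmDiff v A) {a} := by
    rw [← ha, symmDiff_assoc, ← symmDiff_assoc A A B, symmDiff_self, bot_symmDiff]
  rw [e]
  by_cases h' : a ∈ symmDiff v A
  · right
    rw [card_symmDiff_singleton_of_mem h']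
    have : 0 < (symmDiff v A).card := Finset.card_pos.2 ⟨a, h'⟩
    omega
  · left
    rw [card_symmDiff_singleton_of_not_mem h']

theorem move_dist {C C' : Fin k → Finset (Fin m)} (h : CopMove (cube m) C C')
    (v : Finset (Fin m)) (i : Fin k) :
    (symmDiff v (C i)).card = (symmDiff v (C' i)).card ∨
    (symmDiff v (C i)).card + 1 = (symmDiff v (C' i)).card ∨
    (symmDiff v (C i)).card = (symmDiff v (C' i)).card + 1 := by
  rcases h i with h | h
  · left; rw [h]
  · right; exact dist_step v (C i) (C' i) (none : Option ℕ) h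

/-- density of the vertices occupied by cops in a sphere -/
theorem xs_blocked_le (C' : Fin k → Finset (Fin m)) (v : Finset (Fin m)) {t : ℕ} (ht : t ≤ m) :
    xs (fun A => ∃ i, C' i = symmDiff v A) t
      ≤ ∑ i, if (symmDiff v (C' i)).card = t then 1 / (m.choose t : ℝ) else 0 := by
  classical
  have hch : (0 : ℝ) < (m.choose t : ℝ) := by exact_mod_cast Nat.choose_pos ht
  have h := choose_mul_pr (fun A => ∃ i, C' i = symmDiff v A) (As m t)
  rw [card_As ht] at h
  have h2 : ∑ B ∈ powersetCard t (univ : Finset (Fin m)),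
      (if ∃ i, C' i = symmDiff v B then (1 : ℝ) else 0)
      ≤ ∑ B ∈ powersetCard t (univ : Finset (Fin m)),
        ∑ i, (if C' i = symmDiff v B then (1 : ℝ) else 0) := by
    apply Finset.sum_le_sum
    intro B _
    by_cases hB : ∃ i, C' i = symmDiff v B
    · rw [if_pos hB]
      obtain ⟨i, hi⟩ := hB
      have : (if C' i = symmDiff v B then (1 : ℝ) else 0)
          ≤ ∑ i, (if C' i = symmDiff v B then (1 : ℝ) else 0) :=
        Finset.single_le_sum (f := fun i => if C' i = symmDiff v B then (1 : ℝ) else 0)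
          (fun j _ => by show 0 ≤ (if C' j = symmDiff v B then (1 : ℝ) else 0)
                         split_ifs <;> norm_num) (Finset.mem_univ i)
      rw [if_pos hi] at this
      exact this
    · rw [if_neg hB]
      apply Finset.sum_nonneg
      intro i _
      split_ifs <;> norm_num
  have h3 : ∑ B ∈ powersetCard t (univ : Finset (Fin m)),
        ∑ i, (if C' i = symmDiff v B then (1 : ℝ) else 0)
      ≤ ∑ i, if (symmDiff v (C' i)).card = t then (1 : ℝ) else 0 := by
    rw [Finset.sum_comm]
    apply Finset.sum_le_sum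
    intro i _
    have e : ∀ B ∈ powersetCard t (univ : Finset (Fin m)),
        (if C' i = symmDiff v B then (1 : ℝ) else 0)
          = (if B = symmDiff v (C' i) then (1 : ℝ) else 0) := by
      intro B _
      congr 1
      rw [eq_iff_iff]
      constructor
      · intro h; rw [h, ← symmDiff_assoc, symmDiff_self, bot_symmDiff]
      · intro h; rw [h, ← symmDiff_assoc, symmDiff_self, bot_symmDiff]
    rw [Finset.sum_congr rfl e, Finset.sum_ite_eq']
    simp only [mem_powersetCard_univ]
    exact le_refl _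
  have h4 : (m.choose t : ℝ) * xs (fun A => ∃ i, C' i = symmDiff v A) t
      ≤ ∑ i, if (symmDiff v (C' i)).card = t then (1 : ℝ) else 0 := by
    show (m.choose t : ℝ) * pr _ ≤ _
    refine le_trans (le_of_eq ?_) (h2.trans h3)
    rw [h]
    apply Finset.sum_congr rfl
    intro B _
    by_cases hB : ∃ i, C' i = symmDiff v B
    · rw [if_pos hB, if_pos hB]
    · rw [if_neg hB, if_neg hB]
  have h5 : xs (fun A => ∃ i, C' i = symmDiff v A) t
      ≤ (∑ i, if (symmDiff v (C' i)).card = t then (1 : ℝ) else 0) / (m.choose t : ℝ) := by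
    rw [le_div_iff₀ hch]
    linarith
  refine h5.trans (le_of_eq ?_)
  rw [Finset.sum_div]
  apply Finset.sum_congr rfl
  intro i _
  split_ifs <;> simp

end Pool.Agent.H.MP_b23ae3_co
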