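import Mathlib

set_option autoImplicit false

namespace Pool.Agent.H.MP_b23ae3_co

universe u

variable {V : Type u}

/-- A cop move: each of the `k` cops stays put or moves to an adjacent vertex. -/
def CopMove (G : SimpleGraph V) {k : ℕ} (C C' : Fin k → V) : Prop :=
  ∀ i, C' i = C i ∨ G.Adj (C i) (C' i)

/-- A robber move against cops standing at `C`: the robber travels along a path (possibly of
length zero) that contains no vertex occupied by a cop. -/
def RobberMove (G : SimpleGraph V) {k : ℕ} (C : Fin k → V) (r r' : V) : Prop :=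
  ∃ p : G.Walk r r', p.IsPath ∧ ∀ x ∈ p.support, ∀ i, C i ≠ x

/-- A strategy of `k` cops. `pos h` is the position of the cops when the robber's positions so
far are the members of `h`, latest first; `pos []` is the initial placement, and
`pos (r :: h)` is the position of the cops after they have answered the robber's position `r`. -/
structure CopStrategy (G : SimpleGraph V) (k : ℕ) where
  pos : List V → Fin k → V
  legal : ∀ (h : List V) (r : V), CopMove G (pos h) (pos (r :: h))

/-- The robber's first `n` positions, latest first. -/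
def hist (r : ℕ → V) : ℕ → List V
  | 0 => []
  | n + 1 => r n :: hist r n

/-- In the play given by the strategy and the robber's positions `r 0, r 1, ...`, a cop moves onto
the robber's vertex `r n` in the `n`-th cop move. -/
def Captured {G : SimpleGraph V} {k : ℕ} (σ : CopStrategy G k) (r : ℕ → V) (n : ℕ) : Prop :=
  ∃ i, σ.pos (hist r (n + 1)) i = r n

/-- The robber's positions `r 0, r 1, ...` obey the rules as long as she is not captured. -/
def LegalPlay {G : SimpleGraph V} {k : ℕ} (σ : CopStrategy G k) (r : ℕ → V) : Prop :=
  ∀ n, (∀ j ≤ n, ¬ Captured σ r j) →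
    RobberMove G (σ.pos (hist r (n + 1))) (r n) (r (n + 1))

/-- The strategy wins against every play of the robber. -/
def Wins {G : SimpleGraph V} {k : ℕ} (σ : CopStrategy G k) : Prop :=
  ∀ r : ℕ → V, LegalPlay σ r → ∃ n, Captured σ r n

/-- The cop number against a robber of unbounded speed. -/
noncomputable def copNumber (G : SimpleGraph V) : ℕ :=
  sInf {k : ℕ | ∃ σ : CopStrategy G k, Wins σ}

/-- The hypercube: two 0-1 vectors are adjacent when they differ in exactly one coordinate. -/
def hypercube (m : ℕ) : SimpleGraph (Fin m → Bool) where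
  Adj x y := hammingDist x y = 1
  symm := ⟨fun x y h => by rw [hammingDist_comm]; exact h⟩
  loopless := ⟨fun x h => by simp at h⟩

/-! ### Basic facts on robber moves -/

theorem RobberMove.refl (G : SimpleGraph V) {k : ℕ} (C : Fin k → V) (r : V)
    (h : ∀ i, C i ≠ r) : RobberMove G C r r :=
  ⟨SimpleGraph.Walk.nil, SimpleGraph.Walk.IsPath.nil, by
    intro x hx i
    simp only [SimpleGraph.Walk.support_nil, List.mem_singleton] at hx
    subst hx
    exact h i⟩

theorem robberMove_of_walk (G : SimpleGraph V) {k : ℕ} (C : Fin k → V) {r r' : V}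
    (p : G.Walk r r') (hp : ∀ x ∈ p.support, ∀ i, C i ≠ x) : RobberMove G C r r' := by
  classical
  exact ⟨p.bypass, p.bypass_isPath, fun x hx i => hp x (p.support_bypass_subset_support hx) i⟩

theorem RobberMove.symm {G : SimpleGraph V} {k : ℕ} {C : Fin k → V} {r r' : V}
    (h : RobberMove G C r r') : RobberMove G C r' r := by
  obtain ⟨p, _, hp⟩ := h
  refine robberMove_of_walk G C p.reverse ?_
  intro x hx i
  rw [SimpleGraph.Walk.support_reverse, List.mem_reverse] at hx
  exact hp x hx i

theorem RobberMove.trans {G : SimpleGraph V} {k : ℕ} {C : Fin k → V} {r r' r'' : V}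
    (h : RobberMove G C r r') (h' : RobberMove G C r' r'') : RobberMove G C r r'' := by
  obtain ⟨p, _, hp⟩ := h
  obtain ⟨q, _, hq⟩ := h'
  refine robberMove_of_walk G C (p.append q) ?_
  intro x hx i
  rw [SimpleGraph.Walk.mem_support_append_iff] at hx
  rcases hx with hx | hx
  · exact hp x hx i
  · exact hq x hx i

theorem RobberMove.step {G : SimpleGraph V} {k : ℕ} {C : Fin k → V} {r r' r'' : V}
    (h : RobberMove G C r r') (ha : G.Adj r' r'') (hc : ∀ i, C i ≠ r'') :
    RobberMove G C r r'' := by
  obtain ⟨p, _, hp⟩ := h
  refine robberMove_of_walk G C (p.concat ha) ?_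
  intro x hx i
  rw [SimpleGraph.Walk.support_concat, List.mem_append, List.mem_singleton] at hx
  rcases hx with hx | hx
  · exact hp x hx i
  · subst hx; exact hc i

theorem RobberMove.not_left {G : SimpleGraph V} {k : ℕ} {C : Fin k → V} {r r' : V}
    (h : RobberMove G C r r') (i : Fin k) : C i ≠ r := by
  obtain ⟨p, _, hp⟩ := h
  exact hp r p.start_mem_support i

theorem CopMove.refl (G : SimpleGraph V) {k : ℕ} (C : Fin k → V) : CopMove G C C :=
  fun _ => Or.inl rfl

/-! ### Evasion from a safe predicate -/

theorem not_wins_of_safe {G : SimpleGraph V} {k : ℕ} (Safe : (Fin k → V) → V → Prop)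
    (h0 : ∀ C, ∃ v, Safe C v)
    (h1 : ∀ C C' v, Safe C v → CopMove G C C' →
      (∀ i, C' i ≠ v) ∧ ∃ v', RobberMove G C' v v' ∧ Safe C' v')
    (σ : CopStrategy G k) : ¬ Wins σ := by
  classical
  let St := {p : List V × V // Safe (σ.pos p.1) p.2}
  let nxt : St → St := fun p =>
    ⟨(p.1.2 :: p.1.1, Classical.choose (h1 _ _ _ p.2 (σ.legal p.1.1 p.1.2)).2),
      (Classical.choose_spec (h1 _ _ _ p.2 (σ.legal p.1.1 p.1.2)).2).2⟩
  have hn : ∀ p : St, (nxt p).1.1 = p.1.2 :: p.1.1 := fun p => rfl
  have hm : ∀ p : St, RobberMove G (σ.pos (p.1.2 :: p.1.1)) p.1.2 (nxt p).1.2 := fun p =>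
    (Classical.choose_spec (h1 _ _ _ p.2 (σ.legal p.1.1 p.1.2)).2).1
  let s0 : St := ⟨([], Classical.choose (h0 (σ.pos []))), Classical.choose_spec (h0 (σ.pos []))⟩
  let st : ℕ → St := fun n => nxt^[n] s0
  have hst : ∀ n, st (n + 1) = nxt (st n) := fun n => Function.iterate_succ_apply' nxt n s0
  let r : ℕ → V := fun n => (st n).1.2
  have hh : ∀ n, (st n).1.1 = hist r n := by
    intro n
    induction n with
    | zero => rfl
    | succ n ih =>
      rw [hst, hn, ih]
      rfl
  intro hw
  obtain ⟨n, i, hi⟩ := hw r (by
    intro n _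
    have := hm (st n)
    rw [hh n] at this
    have e : (nxt (st n)).1.2 = r (n + 1) := by
      show _ = (st (n + 1)).1.2
      rw [hst]
    rw [e] at this
    exact this)
  have h2 := (h1 _ _ _ (st n).2 (σ.legal (st n).1.1 (st n).1.2)).1 i
  rw [hh n] at h2
  exact h2 hi

theorem not_wins_zero (G : SimpleGraph V) [Nonempty V] (σ : CopStrategy G 0) : ¬ Wins σ := by
  intro hw
  obtain ⟨v⟩ := ‹Nonempty V›
  obtain ⟨n, i, _⟩ := hw (fun _ => v) (fun n _ => RobberMove.refl G _ v (fun i => i.elim0))
  exact i.elim0

/-! ### Transfer along graph isomorphisms -/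

theorem hist_map {W : Type u} (f : V → W) (r : ℕ → V) (n : ℕ) :
    hist (fun j => f (r j)) n = (hist r n).map f := by
  induction n with
  | zero => rfl
  | succ n ih => simp [hist, ih]

theorem wins_of_iso {W : Type u} {G : SimpleGraph V} {H : SimpleGraph W} (e : G ≃g H) {k : ℕ}
    (h : ∃ σ : CopStrategy G k, Wins σ) : ∃ σ : CopStrategy H k, Wins σ := by
  obtain ⟨σ, hσ⟩ := h
  refine ⟨⟨fun h i => e (σ.pos (h.map e.symm) i), ?_⟩, ?_⟩
  · intro h r i
    rcases σ.legal (h.map e.symm) (e.symm r) i with h' | h'
    · left
      show e _ = e _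
      rw [List.map_cons, h']
    · right
      show H.Adj (e _) (e _)
      rw [e.map_adj_iff, List.map_cons]
      exact h'
  · intro r hr
    have key : ∀ n, σ.pos (hist (fun j => e.symm (r j)) n)
        = fun i => e.symm (e (σ.pos ((hist r n).map e.symm) i)) := by
      intro n
      funext i
      rw [hist_map]
      simp
    obtain ⟨n, i, hi⟩ := hσ (fun j => e.symm (r j)) (by
      intro n hn
      obtain ⟨p, _, hp⟩ := hr n (by
        intro j hj hc
        apply hn j hj
        obtain ⟨i, hi⟩ := hc
        refine ⟨i, ?_⟩
        rw [hist_map]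
        apply e.injective
        simpa using hi)
      refine robberMove_of_walk G _ (p.map e.symm.toHom) ?_
      intro x hx i
      rw [SimpleGraph.Walk.support_map, List.mem_map] at hx
      obtain ⟨y, hy, rfl⟩ := hx
      intro hc
      apply hp y hy i
      show e _ = y
      rw [hist_map] at hc
      rw [hc]
      simp)
    refine ⟨n, i, ?_⟩
    show e _ = r n
    rw [hist_map] at hi
    rw [hi]
    simp

/-! ### Dominating sets give winning strategies -/

theorem wins_of_dominating {G : SimpleGraph V} {k : ℕ} (D : Fin k → V)
    (hD : ∀ v, ∃ i, D i = v ∨ G.Adj (D i) v) : ∃ σ : CopStrategy G k, Wins σ := by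
  classical
  choose f hf using hD
  let pos : List V → Fin k → V := fun h =>
    match h.getLast? with
    | none => D
    | some r => Function.update D (f r) r
  refine ⟨⟨pos, ?_⟩, ?_⟩
  · intro h r i
    rcases h.eq_nil_or_concat with rfl | ⟨l, a, rfl⟩
    · show Function.update D (f r) r i = D i ∨ G.Adj (D i) (Function.update D (f r) r i)
      by_cases hi : i = f r
      · subst hi
        rw [Function.update_self]
        rcases hf r with h | h
        · left; exact h.symm
        · right; exact h
      · rw [Function.update_of_ne hi]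
        left; rfl
    · left
      have e1 : (r :: (l.concat a)).getLast? = some a := by
        rw [List.concat_eq_append, ← List.cons_append, List.getLast?_append]; simp
      have e2 : (l.concat a).getLast? = some a := by
        rw [List.concat_eq_append, List.getLast?_append]; simp
      show (match (r :: (l.concat a)).getLast? with
        | none => D
        | some r => Function.update D (f r) r) i = (match (l.concat a).getLast? with
        | none => D
        | some r => Function.update D (f r) r) i
      rw [e1, e2]
  · intro r _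
    refine ⟨0, f (r 0), ?_⟩
    show Function.update D (f (r 0)) (r 0) (f (r 0)) = r 0
    rw [Function.update_self]

end Pool.Agent.H.MP_b23ae3_co
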