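import Pool.Agent.H.MP_b23ae3_co.Core

set_option autoImplicit false

open Finset

namespace Pool.Agent.H.MP_b23ae3_co

variable {m k : ℕ}

/-- A vertex around which the cops have small averages. -/
structure Good (C : Fin k → Finset (Fin m)) (v : Finset (Fin m)) : Prop where
  near : ∀ s : ℕ, 8 * (s + 1) ≤ m → wt C v s ≤ 16 * ((s : ℝ) + 1) * (1 / (448 * m))
  far : wt C v m ≤ 1 / 128

theorem term_le_wt (C : Fin k → Finset (Fin m)) (v : Finset (Fin m)) (s : ℕ) (i : Fin k)
    (hi : (symmDiff v (C i)).card ≤ s) :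
    1 / (m.choose (symmDiff v (C i)).card : ℝ) ≤ wt C v s := by
  unfold wt
  have h := Finset.single_le_sum
    (f := fun i => if (symmDiff v (C i)).card ≤ s
      then 1 / (m.choose (symmDiff v (C i)).card : ℝ) else 0)
    (fun j _ => by
      show 0 ≤ (if (symmDiff v (C j)).card ≤ s
        then 1 / (m.choose (symmDiff v (C j)).card : ℝ) else 0)
      split_ifs <;> positivity) (Finset.mem_univ i)
  simp only [hi, if_true] at h
  exact h

theorem good_dist (hm : 14 ≤ m) {C : Fin k → Finset (Fin m)} {v : Finset (Fin m)}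
    (hv : Good C v) (i : Fin k) : 2 ≤ (symmDiff v (C i)).card := by
  by_contra hc
  push Not at hc
  have hm0 : (14 : ℝ) ≤ m := by exact_mod_cast hm
  have hmp : (0 : ℝ) < m := by linarith
  have hd : (symmDiff v (C i)).card ≤ 1 := by omega
  have h1 : 1 / (m : ℝ) ≤ 1 / (m.choose (symmDiff v (C i)).card : ℝ) := by
    interval_cases h : (symmDiff v (C i)).card
    · simp only [Nat.choose_zero_right, Nat.cast_one]
      rw [div_le_div_iff₀ hmp one_pos]
      linarith
    · simp
  by_cases h16 : 16 ≤ m
  · have h2 := term_le_wt C v 1 i hd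
    have h3 := hv.near 1 (by omega)
    have h4 : 1 / (m : ℝ) ≤ 16 * (((1 : ℕ) : ℝ) + 1) * (1 / (448 * m)) := by linarith
    have h5 : 16 * (((1 : ℕ) : ℝ) + 1) * (1 / (448 * m)) = (1 / 14) * (1 / (m : ℝ)) := by
      field_simp
      norm_num
    rw [h5] at h4
    have h6 : 0 < 1 / (m : ℝ) := by positivity
    linarith
  · have h2 := term_le_wt C v m i (by omega)
    have h3 := hv.far
    have h4 : 1 / (m : ℝ) ≤ 1 / 128 := by linarith
    rw [div_le_div_iff₀ hmp (by norm_num)] at h4
    have : (m : ℝ) < 16 := by exact_mod_cast (by omega : m < 16)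
    linarith

/-- the blocked density near a good vertex, small radii -/
theorem near_blocked (hm : 14 ≤ m) {C C' : Fin k → Finset (Fin m)}
    (hmove : CopMove (cube m) C C') {v : Finset (Fin m)} (hv : Good C v) (s : ℕ) (h1 : 1 ≤ s)
    (h2 : s ≤ m / 8 - 2) :
    ∑ j ∈ range s, ((j + 1 : ℕ) : ℝ) * xs (fun A => ∃ i, C' i = symmDiff v A) (j + 1)
      ≤ 7 / 64 * s := by
  have hmp : (0 : ℝ) < m := by exact_mod_cast (by omega : 0 < m)
  have a1 : ∑ j ∈ range s, ((j + 1 : ℕ) : ℝ) * xs (fun A => ∃ i, C' i = symmDiff v A) (j + 1)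
      ≤ ∑ j ∈ range s, ∑ i, (if (symmDiff v (C' i)).card = j + 1
          then ((j + 1 : ℕ) : ℝ) * (1 / (m.choose (j + 1) : ℝ)) else 0) := by
    apply Finset.sum_le_sum
    intro j hj
    have hj' := Finset.mem_range.1 hj
    refine (mul_le_mul_of_nonneg_left (xs_blocked_le C' v (t := j + 1) (by omega))
      (Nat.cast_nonneg _)).trans (le_of_eq ?_)
    rw [Finset.mul_sum]
    apply Finset.sum_congr rfl
    intro i _
    split_ifs <;> simp
  have a2 : ∑ j ∈ range s, ∑ i, (if (symmDiff v (C' i)).card = j + 1
          then ((j + 1 : ℕ) : ℝ) * (1 / (m.choose (j + 1) : ℝ)) else 0)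
      ≤ m * wt C v (s + 1) := by
    rw [Finset.sum_comm]
    unfold wt
    rw [Finset.mul_sum]
    apply Finset.sum_le_sum
    intro i _
    by_cases h : 1 ≤ (symmDiff v (C' i)).card ∧ (symmDiff v (C' i)).card ≤ s
    · obtain ⟨d, hd⟩ : ∃ d, (symmDiff v (C' i)).card = d + 1 :=
        ⟨(symmDiff v (C' i)).card - 1, by omega⟩
      rw [hd]
      have e : ∑ j ∈ range s, (if d + 1 = j + 1
          then ((j + 1 : ℕ) : ℝ) * (1 / (m.choose (j + 1) : ℝ)) else 0)
          = ((d + 1 : ℕ) : ℝ) * (1 / (m.choose (d + 1) : ℝ)) := by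
        rw [Finset.sum_eq_single d]
        · rw [if_pos rfl]
        · intro j _ hj
          rw [if_neg (by omega)]
        · intro hd'
          exact absurd (Finset.mem_range.2 (by omega)) hd'
      rw [e]
      have hdist := move_dist hmove v i
      have hle : (symmDiff v (C i)).card ≤ s + 1 := by omega
      rw [if_pos hle]
      have hch := choose_near_one (m := m) (d := (symmDiff v (C i)).card)
        (d' := (symmDiff v (C' i)).card) (s := s) hdist h.1 (by omega) h.2
      rw [hd] at hch
      have p1 : (0 : ℝ) < (m.choose (d + 1) : ℝ) := by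
        exact_mod_cast Nat.choose_pos (by omega)
      have p2 : (0 : ℝ) < (m.choose (symmDiff v (C i)).card : ℝ) := by
        exact_mod_cast Nat.choose_pos (card_le _)
      rw [mul_one_div, mul_one_div, div_le_div_iff₀ p1 p2]
      exact_mod_cast hch
    · rw [Finset.sum_eq_zero]
      · apply mul_nonneg (Nat.cast_nonneg _)
        split_ifs <;> positivity
      · intro j hj
        have hj' := Finset.mem_range.1 hj
        rw [if_neg]
        intro hh
        exact h ⟨by omega, by omega⟩
  have a3 := hv.near (s + 1) (by omega)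
  have a4 : (m : ℝ) * wt C v (s + 1)
      ≤ m * (16 * (((s + 1 : ℕ) : ℝ) + 1) * (1 / (448 * m))) :=
    mul_le_mul_of_nonneg_left a3 hmp.le
  have a5 : (m : ℝ) * (16 * (((s + 1 : ℕ) : ℝ) + 1) * (1 / (448 * m))) = ((s : ℝ) + 2) / 28 := by
    push_cast
    field_simp
    ring
  have hs : (1 : ℝ) ≤ s := by exact_mod_cast h1
  rw [a5] at a4
  linarith

/-- the blocked density near a good vertex, large radii -/
theorem far_blocked (hm : 14 ≤ m) {C C' : Fin k → Finset (Fin m)}
    (hmove : CopMove (cube m) C C') {v : Finset (Fin m)} (hv : Good C v) (t : ℕ)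
    (ht : t ≤ 3 * m / 4) :
    ∑ r ∈ Ioc (m / 8 - 2) t, xs (fun A => ∃ i, C' i = symmDiff v A) r ≤ 1 / 8 := by
  have a1 : ∑ r ∈ Ioc (m / 8 - 2) t, xs (fun A => ∃ i, C' i = symmDiff v A) r
      ≤ ∑ r ∈ Ioc (m / 8 - 2) t, ∑ i, (if (symmDiff v (C' i)).card = r
          then (1 / (m.choose r : ℝ)) else 0) := by
    apply Finset.sum_le_sum
    intro r hr
    have hr' := Finset.mem_Ioc.1 hr
    exact xs_blocked_le C' v (t := r) (by omega)
  have a2 : ∑ r ∈ Ioc (m / 8 - 2) t, ∑ i, (if (symmDiff v (C' i)).card = r
          then (1 / (m.choose r : ℝ)) else 0) ≤ 16 * wt C v m := by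
    rw [Finset.sum_comm]
    unfold wt
    rw [Finset.mul_sum]
    apply Finset.sum_le_sum
    intro i _
    rw [if_pos (card_le _)]
    rw [Finset.sum_ite_eq]
    split_ifs with h
    · have h' := Finset.mem_Ioc.1 h
      have hdist := move_dist hmove v i
      have hch := choose_near_two (m := m) (d := (symmDiff v (C i)).card)
        (d' := (symmDiff v (C' i)).card) hdist (by omega) (by omega)
      have p1 : (0 : ℝ) < (m.choose (symmDiff v (C' i)).card : ℝ) := by
        exact_mod_cast Nat.choose_pos (card_le _)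
      have p2 : (0 : ℝ) < (m.choose (symmDiff v (C i)).card : ℝ) := by
        exact_mod_cast Nat.choose_pos (card_le _)
      rw [mul_one_div, div_le_div_iff₀ p1 p2, one_mul]
      exact_mod_cast hch
    · positivity
  have a3 := hv.far
  linarith

theorem reach_large (hm : 14 ≤ m) {C C' : Fin k → Finset (Fin m)}
    (hmove : CopMove (cube m) C C') {v : Finset (Fin m)} (hv : Good C v)
    [DecidablePred fun u => RobberMove (cube m) C' v u] :
    2 ^ m < 2 * (univ.filter (fun u => RobberMove (cube m) C' v u)).card := by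
  classical
  have hv0 : ∀ i, C' i ≠ v := by
    intro i hi
    have h1 := move_dist hmove v i
    have h2 := good_dist hm hv i
    have h3 : (symmDiff v v).card = 0 := by rw [symmDiff_self]; rfl
    rw [hi, h3] at h1
    omega
  set p : Finset (Fin m) → Prop := fun A => ¬ RobberMove (cube m) C' v (symmDiff v A) with hp
  set b : ℕ → ℝ := fun t => xs (fun A => ∃ i, C' i = symmDiff v A) t with hb
  have hb0 : ∀ t, 0 ≤ b t := fun t => pr_nonneg _
  have hx0 : ∀ t, 0 ≤ xs p t := fun t => pr_nonneg _
  have hx00 : xs p 0 = 0 := by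
    rw [← xs_eq p (Nat.zero_le m) (A := ∅) Finset.card_empty]
    rw [pr_congr (q := fun _ => False), pr_false]
    intro σ
    rw [iff_false, hp]
    push Not
    have : symmDiff v (img σ ∅) = v := by
      have : img σ (∅ : Finset (Fin m)) = ⊥ := by unfold img; exact Finset.map_empty _
      rw [this, symmDiff_bot]
    rw [this]
    exact RobberMove.refl _ _ _ hv0
  -- the step
  have hstep : ∀ t, t + 1 ≤ m → ∀ U : Finset (Fin m), U.card = t + 1 →
      xs p (t + 1) ≤ b (t + 1) + pr (fun σ => ∀ a ∈ img σ U, p ((img σ U).erase a)) := by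
    intro t ht U hU
    rw [← xs_eq p ht hU, hb]
    show _ ≤ xs (fun A => ∃ i, C' i = symmDiff v A) (t + 1) + _
    rw [← xs_eq (fun A => ∃ i, C' i = symmDiff v A) ht hU]
    refine le_trans (pr_mono ?_) (pr_or_le _ _)
    intro σ hσ
    by_cases hB : ∃ i, C' i = symmDiff v (img σ U)
    · left; exact hB
    · right
      intro a ha hr
      apply hσ
      push Not at hB
      refine hr.step ?_ hB
      show (symmDiff (symmDiff v ((img σ U).erase a)) (symmDiff v (img σ U))).card = 1
      have e : symmDiff (symmDiff v ((img σ U).erase a)) (symmDiff v (img σ U)) = {a} := by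
        rw [symmDiff_symmDiff_symmDiff_comm, symmDiff_self, bot_symmDiff]
        ext x
        simp only [Finset.mem_symmDiff, Finset.mem_erase, Finset.mem_singleton]
        constructor
        · rintro (⟨⟨h1, h2⟩, h3⟩ | ⟨h1, h2⟩)
          · exact absurd h2 h3
          · by_contra hx
            exact h2 ⟨hx, h1⟩
        · intro hx
          subst hx
          exact Or.inr ⟨ha, fun h => h.1 rfl⟩
      rw [e, Finset.card_singleton]
  have hstep1 : ∀ t, t + 1 ≤ m → xs p (t + 1) ≤ xs p t + b (t + 1) := by
    intro t ht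
    obtain ⟨U, hU⟩ := exists_card ht
    have h := hstep t ht U hU
    obtain ⟨a, ha⟩ : U.Nonempty := by rw [← Finset.card_pos]; omega
    have h2 : pr (fun σ => ∀ a ∈ img σ U, p ((img σ U).erase a)) ≤ xs p t := by
      rw [← xs_eq p (by omega) (A := U.erase a) (by rw [Finset.card_erase_of_mem ha, hU]; rfl)]
      apply pr_mono
      intro σ hσ
      rw [img_erase]
      exact hσ _ (mem_img.2 ha)
    linarith
  have hstep2 : ∀ t, 1 ≤ t → t + 1 ≤ m →
      xs p (t + 1) ≤ xs p t - xs p t * (1 - xs p t) / t + b (t + 1) := by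
    intro t ht1 ht
    obtain ⟨U, hU⟩ := exists_card ht
    have h := hstep t ht U hU
    have h2 := one_step p U t hU ht1 (xs p t) (fun A hA => xs_eq p (by omega) hA)
    linarith
  -- phase one
  have hT : xs p (m / 8 - 2) ≤ 1 / 8 := by
    rcases Nat.eq_zero_or_pos (m / 8 - 2) with h | h
    · rw [h, hx00]; norm_num
    · refine seq_bound (xs p) b (m / 8 - 2) hx0 ?_ ?_ ?_ _ h le_rfl
      · have := hstep1 0 (by omega)
        rw [hx00] at this
        simpa using this
      · intro t h1 h2
        exact hstep2 t h1 (by omega)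
      · intro s h1 h2
        exact near_blocked hm hmove hv s h1 h2
  -- phase two
  have hph2 : ∀ t, m / 8 - 2 ≤ t → t ≤ 3 * m / 4 →
      xs p t ≤ 1 / 8 + ∑ r ∈ Ioc (m / 8 - 2) t, b r := by
    intro t ht
    induction t, ht using Nat.le_induction with
    | base => intro _; simpa using hT
    | succ t ht ih =>
      intro h
      have h1 := ih (by omega)
      have h2 := hstep1 t (by omega)
      have h3 : ∑ r ∈ Ioc (m / 8 - 2) (t + 1), b r
          = ∑ r ∈ Ioc (m / 8 - 2) t, b r + b (t + 1) := by
        rw [Finset.sum_Ioc_succ_top ht]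
      rw [h3]
      linarith
  have hquarter : ∀ t, t ≤ 3 * m / 4 → xs p t ≤ 1 / 4 := by
    intro t ht
    by_cases h : m / 8 - 2 ≤ t
    · have h1 := hph2 t h ht
      have h2 := far_blocked hm hmove hv t ht
      have h3 : ∑ r ∈ Ioc (m / 8 - 2) t, b r
        = ∑ r ∈ Ioc (m / 8 - 2) t, xs (fun A => ∃ i, C' i = symmDiff v A) r := rfl
      rw [h3] at h1
      linarith
    · rcases Nat.eq_zero_or_pos t with h0 | h0
      · rw [h0, hx00]; norm_num
      · have : xs p t ≤ 1 / 8 := by
          refine seq_bound (xs p) b (m / 8 - 2) hx0 ?_ ?_ ?_ t h0 (by omega)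
          · have := hstep1 0 (by omega)
            rw [hx00] at this
            simpa using this
          · intro t h1 h2
            exact hstep2 t h1 (by omega)
          · intro s h1 h2
            exact near_blocked hm hmove hv s h1 h2
        linarith
  -- counting
  have hcount : (((univ : Finset (Finset (Fin m))).filter
      (fun u => ¬ RobberMove (cube m) C' v u)).card : ℝ)
      = ∑ t ∈ range (m + 1), (m.choose t : ℝ) * xs p t := by
    rw [← Finset.sum_boole]
    have e1 : ∑ u : Finset (Fin m), (if ¬ RobberMove (cube m) C' v u then (1 : ℝ) else 0)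
        = ∑ A : Finset (Fin m), (if p A then (1 : ℝ) else 0) := by
      refine Fintype.sum_equiv (Function.Involutive.toPerm (fun u => symmDiff v u) (fun u => by
        show symmDiff v (symmDiff v u) = u
        rw [← symmDiff_assoc, symmDiff_self, bot_symmDiff])) _ _ (fun u => ?_)
      show (if ¬ RobberMove (cube m) C' v u then (1 : ℝ) else 0)
        = (if ¬ RobberMove (cube m) C' v (symmDiff v (symmDiff v u)) then (1 : ℝ) else 0)
      rw [← symmDiff_assoc, symmDiff_self, bot_symmDiff]
    rw [e1, ← Finset.powerset_univ, Finset.sum_powerset, Finset.card_univ, Fintype.card_fin]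
    apply Finset.sum_congr rfl
    intro t ht
    have htm : t ≤ m := by
      have := Finset.mem_range.1 ht
      omega
    have h := choose_mul_pr p (As m t)
    rw [card_As htm] at h
    show _ = (m.choose t : ℝ) * pr _
    rw [h]
    apply Finset.sum_congr rfl
    intro B _
    by_cases hB : p B
    · rw [if_pos hB, if_pos hB]
    · rw [if_neg hB, if_neg hB]
  have hsum : ∑ t ∈ range (m + 1), (m.choose t : ℝ) * xs p t
      ≤ ∑ t ∈ range (m + 1), (m.choose t : ℝ) * (1 / 4)
        + ∑ t ∈ (range (m + 1)).filter (fun t => 3 * m / 4 < t), (m.choose t : ℝ) * (3 / 4) := by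
    rw [Finset.sum_filter, ← Finset.sum_add_distrib]
    apply Finset.sum_le_sum
    intro t _
    have hc0 : (0 : ℝ) ≤ (m.choose t : ℝ) := Nat.cast_nonneg _
    by_cases h : 3 * m / 4 < t
    · rw [if_pos h]
      have : xs p t ≤ 1 := pr_le_one _
      nlinarith
    · rw [if_neg h, add_zero]
      exact mul_le_mul_of_nonneg_left (hquarter t (by omega)) hc0
  have hch := chebyshev hm
  rw [← Finset.sum_mul, ← Finset.sum_mul] at hsum
  have htot : ∑ t ∈ range (m + 1), (m.choose t : ℝ) = 2 ^ m := by
    have := Nat.sum_range_choose m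
    exact_mod_cast this
  rw [htot] at hsum
  have hall : ((univ.filter (fun u => RobberMove (cube m) C' v u)).card : ℝ)
      + ((univ.filter (fun u => ¬ RobberMove (cube m) C' v u)).card : ℝ) = 2 ^ m := by
    have h1 := Finset.card_filter_add_card_filter_not
      (s := (univ : Finset (Finset (Fin m)))) (fun u => RobberMove (cube m) C' v u)
    rw [Finset.card_univ, Fintype.card_finset, Fintype.card_fin] at h1
    exact_mod_cast h1
  have hfin : (2 : ℝ) ^ m < 2 * ((univ.filter (fun u => RobberMove (cube m) C' v u)).card : ℝ) := by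
    rw [hcount] at hall
    linarith
  exact_mod_cast hfin

/-- Good vertices exist when there are few cops. -/
theorem exists_good (hm : 14 ≤ m) (C : Fin k → Finset (Fin m)) (hk : 1024 * m * k ≤ 2 ^ m) :
    ∃ v, Good C v := by
  classical
  have hm0 : 0 < m := by omega
  have hmp : (14 : ℝ) ≤ m := by exact_mod_cast hm
  obtain ⟨E, hE1, hE2⟩ := bad_small (m := m) hm0 C (lam := 1 / (448 * m)) m
  set F : Finset (Finset (Fin m)) := univ.filter (fun v => 1 / 128 < wt C v m) with hF
  have hF1 : (F.card : ℝ) * (1 / 128) ≤ k * (m + 1) := by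
    rw [← sum_wt C]
    calc (F.card : ℝ) * (1 / 128) = ∑ _v ∈ F, (1 / 128 : ℝ) := by
          rw [Finset.sum_const, nsmul_eq_mul]
      _ ≤ ∑ v ∈ F, wt C v m := by
          apply Finset.sum_le_sum
          intro v hv
          exact (Finset.mem_filter.1 hv).2.le
      _ ≤ ∑ v, wt C v m := by
          apply Finset.sum_le_sum_of_subset_of_nonneg (Finset.subset_univ _)
          intro v _ _
          unfold wt
          apply Finset.sum_nonneg
          intro i _
          split_ifs <;> positivity
  have hk' : (1024 : ℝ) * m * k ≤ 2 ^ m := by exact_mod_cast hk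
  have hk0 : (0 : ℝ) ≤ k := Nat.cast_nonneg k
  have hE3 : (E.card : ℝ) ≤ 448 * m * k := by
    rw [one_div, inv_mul_le_iff₀ (by positivity)] at hE1
    exact hE1
  have hlt : ((E ∪ F).card : ℝ) < 2 ^ m := by
    have h1 : ((E ∪ F).card : ℝ) ≤ E.card + F.card := by exact_mod_cast Finset.card_union_le E F
    have h2 : (F.card : ℝ) ≤ 128 * (k * (m + 1)) := by linarith
    have h3 : (0 : ℝ) < 2 ^ m := by positivity
    rcases hk0.eq_or_lt with h | h
    · rw [← h] at h2 hE3
      simp only [zero_mul, mul_zero] at h2 hE3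
      linarith
    · nlinarith
  have hne : ∃ v, v ∉ E ∪ F := by
    by_contra hc
    push Not at hc
    have h1 : E ∪ F = univ := Finset.eq_univ_iff_forall.2 hc
    rw [h1, Finset.card_univ, Fintype.card_finset, Fintype.card_fin] at hlt
    push_cast at hlt
    exact lt_irrefl _ hlt
  obtain ⟨v, hv⟩ := hne
  rw [Finset.mem_union, not_or] at hv
  refine ⟨v, ?_, ?_⟩
  · intro s hs
    exact wt_le hm0 C v _ m (fun j hj => hE2 v hv.1 j hj) s hs (by omega)
  · by_contra hc
    push Not at hc
    exact hv.2 (Finset.mem_filter.2 ⟨Finset.mem_univ _, hc⟩)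

/-- Few cops do not win on the cube. -/
theorem cube_not_wins (hm : 1 ≤ m) (hk : 1024 * m * k ≤ 2 ^ m) (σ : CopStrategy (cube m) k) :
    ¬ Wins σ := by
  classical
  rcases Nat.eq_zero_or_pos k with h0 | hk1
  · subst h0
    exact not_wins_zero _ σ
  · have hm14 : 14 ≤ m := by
      by_contra hc
      push Not at hc
      have h1 : 1024 * m ≤ 2 ^ m := by
        calc 1024 * m = 1024 * m * 1 := (mul_one _).symm
          _ ≤ 1024 * m * k := Nat.mul_le_mul_left _ hk1
          _ ≤ 2 ^ m := hk
      interval_cases m <;> omega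
    let Safe : (Fin k → Finset (Fin m)) → Finset (Fin m) → Prop := fun C v =>
      ∀ C', CopMove (cube m) C C' →
        2 ^ m < 2 * (univ.filter (fun u => RobberMove (cube m) C' v u)).card
    have h0 : ∀ C, ∃ v, Safe C v := by
      intro C
      obtain ⟨v, hv⟩ := exists_good hm14 C hk
      exact ⟨v, fun C' hC' => reach_large hm14 hC' hv⟩
    refine not_wins_of_safe Safe h0 ?_ σ
    intro C C' v hv hmove
    have h1 := hv C' hmove
    obtain ⟨v', hv'⟩ := h0 C'
    have h2 := hv' C' (CopMove.refl _ _)
    have hinter : ((univ.filter (fun u => RobberMove (cube m) C' v u)) ∩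
        (univ.filter (fun u => RobberMove (cube m) C' v' u))).Nonempty := by
      rw [Finset.nonempty_iff_ne_empty]
      intro he
      have h3 := Finset.card_union_of_disjoint (Finset.disjoint_iff_inter_eq_empty.2 he)
      have h4 := Finset.card_le_univ ((univ.filter (fun u => RobberMove (cube m) C' v u)) ∪
        (univ.filter (fun u => RobberMove (cube m) C' v' u)))
      rw [Fintype.card_finset, Fintype.card_fin] at h4
      omega
    obtain ⟨u, hu⟩ := hinter
    rw [Finset.mem_inter, Finset.mem_filter, Finset.mem_filter] at hu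
    exact ⟨hu.1.2.not_left, v', hu.1.2.trans hu.2.2.symm, hv'⟩

end Pool.Agent.H.MP_b23ae3_co
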