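import Pool.Agent.H.MP_b23ae3_co.Lower

set_option autoImplicit false

open Finset

namespace Pool.Agent.H.MP_b23ae3_co

variable {m s : ℕ}

/-- the two models of the hypercube agree -/
def cubeIso (m : ℕ) : cube m ≃g hypercube m where
  toFun A := fun i => decide (i ∈ A)
  invFun x := univ.filter (fun i => x i = true)
  left_inv A := by ext i; simp
  right_inv x := by
    funext i
    by_cases h : x i = true
    · simp [h]
    · simp only [Bool.not_eq_true] at h
      simp [h]
  map_rel_iff' := by
    intro A B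
    show hammingDist (fun i => decide (i ∈ A)) (fun i => decide (i ∈ B)) = 1
      ↔ (symmDiff A B).card = 1
    have : hammingDist (fun i => decide (i ∈ A)) (fun i => decide (i ∈ B))
        = (symmDiff A B).card := by
      unfold hammingDist
      congr 1
      ext i
      rw [Finset.mem_filter, Finset.mem_symmDiff]
      by_cases h1 : i ∈ A <;> by_cases h2 : i ∈ B <;> simp [h1, h2]
    rw [this]

/-- the syndrome of a set -/
def syn (w : Fin m → Finset (Fin s)) (A : Finset (Fin m)) : Finset (Fin s) :=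
  univ.filter (fun x => Odd (A.filter (fun i => x ∈ w i)).card)

theorem syn_flip (w : Fin m → Finset (Fin s)) (A : Finset (Fin m)) (a : Fin m) :
    syn w (symmDiff A {a}) = symmDiff (syn w A) (w a) := by
  ext x
  rw [Finset.mem_symmDiff]
  simp only [syn, Finset.mem_filter, Finset.mem_univ, true_and]
  by_cases hx : x ∈ w a
  · have e : (symmDiff A {a}).filter (fun i => x ∈ w i)
        = symmDiff (A.filter (fun i => x ∈ w i)) {a} := by
      ext i
      simp only [Finset.mem_filter, Finset.mem_symmDiff, Finset.mem_singleton]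
      constructor
      · rintro ⟨h1 | h1, h2⟩
        · exact Or.inl ⟨⟨h1.1, h2⟩, h1.2⟩
        · exact Or.inr ⟨h1.1, fun h => h1.2 h.1⟩
      · rintro (⟨⟨h1, h2⟩, h3⟩ | ⟨h1, h2⟩)
        · exact ⟨Or.inl ⟨h1, h3⟩, h2⟩
        · subst h1
          exact ⟨Or.inr ⟨rfl, fun h => h2 ⟨h, hx⟩⟩, hx⟩
    rw [e]
    by_cases ha : a ∈ A.filter (fun i => x ∈ w i)
    · rw [card_symmDiff_singleton_of_mem ha]
      have hpos : 0 < (A.filter (fun i => x ∈ w i)).card := Finset.card_pos.2 ⟨a, ha⟩
      rcases Nat.even_or_odd (A.filter (fun i => x ∈ w i)).card with h | h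
      · have h1 : ¬ Odd (A.filter (fun i => x ∈ w i)).card := Nat.not_odd_iff_even.2 h
        have h2 : Odd ((A.filter (fun i => x ∈ w i)).card - 1) := Nat.Even.sub_odd hpos h odd_one
        simp [h1, h2, hx]
      · have h2 : ¬ Odd ((A.filter (fun i => x ∈ w i)).card - 1) := by
          rw [Nat.not_odd_iff_even]
          exact Nat.Odd.sub_odd h odd_one
        simp [h, h2, hx]
    · rw [card_symmDiff_singleton_of_not_mem ha]
      rw [Nat.odd_add_one]
      simp [hx]
  · have e : (symmDiff A {a}).filter (fun i => x ∈ w i) = A.filter (fun i => x ∈ w i) := by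
      ext i
      simp only [Finset.mem_filter, Finset.mem_symmDiff, Finset.mem_singleton]
      constructor
      · rintro ⟨h1 | h1, h2⟩
        · exact ⟨h1.1, h2⟩
        · exact absurd (h1.1 ▸ h2) hx
      · rintro ⟨h1, h2⟩
        exact ⟨Or.inl ⟨h1, fun h => hx (h ▸ h2)⟩, h2⟩
    rw [e]
    simp [hx]

theorem exists_cols (hs : 2 ^ s ≤ m + 1) :
    ∃ w : Fin m → Finset (Fin s), ∀ z : Finset (Fin s), z ≠ ∅ → ∃ a, w a = z := by
  classical
  have hcard : Fintype.card {z : Finset (Fin s) // z ≠ ∅} ≤ Fintype.card (Fin m) := by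
    rw [Fintype.card_fin, Fintype.card_subtype_compl, Fintype.card_subtype_eq,
      Fintype.card_finset, Fintype.card_fin]
    omega
  obtain ⟨e⟩ := Function.Embedding.nonempty_of_card_le hcard
  refine ⟨fun i => if h : ∃ z, e z = i then (Classical.choose h).1 else ∅, ?_⟩
  intro z hz
  refine ⟨e ⟨z, hz⟩, ?_⟩
  have h : ∃ z', e z' = e ⟨z, hz⟩ := ⟨_, rfl⟩
  have h2 := e.injective (Classical.choose_spec h)
  show (if h : ∃ z', e z' = e ⟨z, hz⟩ then (Classical.choose h).1 else ∅) = z
  rw [dif_pos h, h2]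

theorem wins_hamming (hs : 2 ^ s ≤ m + 1) :
    ∃ σ : CopStrategy (cube m) (2 ^ (m - s)), Wins σ := by
  classical
  obtain ⟨w, hw⟩ := exists_cols hs
  set D : Finset (Finset (Fin m)) := univ.filter (fun A => syn w A = ∅) with hD
  have hsm : s ≤ m := by
    have h1 : 2 ^ s ≤ 2 ^ m := hs.trans (Nat.lt_two_pow_self)
    exact (Nat.pow_le_pow_iff_right (by norm_num)).1 h1
  have hfib : ∀ z : Finset (Fin s), (univ.filter (fun A => syn w A = z)).card = D.card := by
    intro z
    by_cases hz : z = ∅
    · rw [hz]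
    · obtain ⟨a, ha⟩ := hw z hz
      refine Finset.card_nbij' (fun A => symmDiff A {a}) (fun A => symmDiff A {a}) ?_ ?_ ?_ ?_
      · intro A hA
        simp only [hD, Finset.coe_filter, Finset.mem_univ, true_and, Set.mem_ofPred_eq] at hA ⊢
        rw [syn_flip, hA, ha, symmDiff_self]; rfl
      · intro A hA
        simp only [hD, Finset.coe_filter, Finset.mem_univ, true_and, Set.mem_ofPred_eq] at hA ⊢
        rw [syn_flip, hA, ha]
        exact bot_symmDiff z
      · intro A _
        show symmDiff (symmDiff A {a}) {a} = A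
        rw [symmDiff_assoc, symmDiff_self, symmDiff_bot]
      · intro A _
        show symmDiff (symmDiff A {a}) {a} = A
        rw [symmDiff_assoc, symmDiff_self, symmDiff_bot]
  have hcard : D.card = 2 ^ (m - s) := by
    have h1 := Finset.card_eq_sum_card_fiberwise (f := syn w)
      (s := (univ : Finset (Finset (Fin m)))) (t := (univ : Finset (Finset (Fin s))))
      (fun A _ => Finset.mem_coe.2 (Finset.mem_univ _))
    rw [Finset.sum_congr rfl (fun z _ => hfib z), Finset.sum_const, Finset.card_univ,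
      Finset.card_univ, Fintype.card_finset, Fintype.card_finset, Fintype.card_fin,
      Fintype.card_fin, smul_eq_mul] at h1
    have h2 : 2 ^ s * 2 ^ (m - s) = 2 ^ m := by
      rw [← pow_add]; congr 1; omega
    rw [← h2] at h1
    exact (Nat.eq_of_mul_eq_mul_left (by positivity) h1).symm
  let en := D.equivFinOfCardEq hcard
  refine wins_of_dominating (fun i => (en.symm i).1) ?_
  intro v
  by_cases hv : syn w v = ∅
  · refine ⟨en ⟨v, Finset.mem_filter.2 ⟨Finset.mem_univ _, hv⟩⟩, Or.inl ?_⟩
    simp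
  · obtain ⟨a, ha⟩ := hw _ hv
    have hmem : symmDiff v {a} ∈ D := by
      refine Finset.mem_filter.2 ⟨Finset.mem_univ _, ?_⟩
      rw [syn_flip, ha, symmDiff_self]; rfl
    refine ⟨en ⟨_, hmem⟩, Or.inr ?_⟩
    simp only [Equiv.symm_apply_apply]
    show (symmDiff (symmDiff v {a}) v).card = 1
    rw [symmDiff_comm v {a}, symmDiff_assoc, symmDiff_self, symmDiff_bot, Finset.card_singleton]

theorem order_bounds (m : ℕ) (hm : 1 ≤ m) :
    (2 : ℝ) ^ m / (1024 * m) < copNumber (hypercube m) ∧
      (copNumber (hypercube m) : ℝ) < 2 * 2 ^ m / (m + 1) := by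
  set s := Nat.log 2 (m + 1) with hs
  have h1 : 2 ^ s ≤ m + 1 := Nat.pow_log_le_self 2 (by omega)
  have h2 : m + 1 < 2 ^ (s + 1) := Nat.lt_pow_succ_log_self (by norm_num) _
  have hsm : s ≤ m := by
    have h3 : 2 ^ s ≤ 2 ^ m := h1.trans (Nat.lt_two_pow_self)
    exact (Nat.pow_le_pow_iff_right (by norm_num)).1 h3
  have hmem : 2 ^ (m - s) ∈ {k : ℕ | ∃ σ : CopStrategy (hypercube m) k, Wins σ} :=
    wins_of_iso (cubeIso m) (wins_hamming h1)
  constructor
  · have hmem2 := Nat.sInf_mem (s := {k : ℕ | ∃ σ : CopStrategy (hypercube m) k, Wins σ})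
      ⟨_, hmem⟩
    obtain ⟨σ, hσ⟩ := wins_of_iso (cubeIso m).symm hmem2
    have hmp : (0 : ℝ) < m := by exact_mod_cast hm
    by_contra hc
    push Not at hc
    have h3 : 1024 * m * copNumber (hypercube m) ≤ 2 ^ m := by
      rw [le_div_iff₀ (by positivity)] at hc
      have : (1024 : ℝ) * m * copNumber (hypercube m) ≤ 2 ^ m := by linarith
      exact_mod_cast this
    exact cube_not_wins hm h3 σ hσ
  · have h3 : copNumber (hypercube m) ≤ 2 ^ (m - s) := Nat.sInf_le hmem
    have h4 : (2 : ℝ) ^ (m - s) < 2 * 2 ^ m / (m + 1) := by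
      rw [lt_div_iff₀ (by positivity)]
      have h5 : ((m : ℝ) + 1) < 2 ^ (s + 1) := by exact_mod_cast h2
      calc (2 : ℝ) ^ (m - s) * (m + 1) < 2 ^ (m - s) * 2 ^ (s + 1) :=
            mul_lt_mul_of_pos_left h5 (by positivity)
        _ = 2 * 2 ^ m := by
            rw [← pow_add, ← pow_succ']
            congr 1
            omega
    have h6 : (copNumber (hypercube m) : ℝ) ≤ 2 ^ (m - s) := by exact_mod_cast h3
    linarith

end Pool.Agent.H.MP_b23ae3_co
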